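import Pool.Agent.V8H73.AN.Mov

/-!
# Systems with degenerate zeros are a null set
-/

set_option autoImplicit false
set_option linter.unusedSectionVars false

open MeasureTheory Set Filter MvPolynomial
open scoped Topology

namespace Pool.Agent.V8H73.AN

theorem det_zero {V : Type*} [NormedAddCommGroup V] [NormedSpace ℝ V] [FiniteDimensional ℝ V] (A : V →L[ℝ] V) {v : V}
    (hv : v ≠ 0) (h : A v = 0) : A.det = 0 := by
  have h1 : LinearMap.ker (A : V →ₗ[ℝ] V) ≠ ⊥ := by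
    intro h2
    apply hv
    have h3 : v ∈ LinearMap.ker (A : V →ₗ[ℝ] V) := h
    rw [h2, Submodule.mem_bot] at h3
    exact h3
  exact LinearMap.det_eq_zero_iff_ker_ne_bot.2 h1

/-- critical values are a null set -/
theorem sard {V : Type*} [NormedAddCommGroup V] [NormedSpace ℝ V] [FiniteDimensional ℝ V] [MeasurableSpace V]
    [BorelSpace V] (μ : Measure V) [μ.IsAddHaarMeasure] {f : V → V} {f' : V → V →L[ℝ] V} {s : Set V}
    (hf : ∀ z ∈ s, HasFDerivAt f (f' z) z) (h : ∀ z ∈ s, ∃ v, v ≠ 0 ∧ f' z v = 0) : μ (f '' s) = 0 :=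
  addHaar_image_eq_zero_of_det_fderivWithin_eq_zero μ (fun z hz => (hf z hz).hasFDerivWithinAt) fun z hz => by
    obtain ⟨v, hv, hv'⟩ := h z hz
    exact det_zero _ hv hv'

/-- a measurable set with null slices is a null set -/
theorem null_lin {𝕜 E F : Type*} [RCLike 𝕜] [NormedAddCommGroup E] [NormedSpace 𝕜 E] [MeasurableSpace E] [BorelSpace E]
    [LocallyCompactSpace E] [NormedAddCommGroup F] [NormedSpace 𝕜 F] [MeasurableSpace F] [BorelSpace F]
    [LocallyCompactSpace F] (μ : Measure E) [μ.IsAddHaarMeasure] (ν : Measure F) [ν.IsAddHaarMeasure] (L : E →ₗ[𝕜] F)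
    {B : Set F} (hB : MeasurableSet B) (h : ∀ y, μ {t : E | y + L t ∈ B} = 0) : ν B = 0 := by
  have h1 := ae_mem_of_ae_add_linearMap_mem L μ ν (s := Bᶜ) hB.compl fun y => by
    rw [ae_iff]
    have h3 : {t : E | ¬ y + L t ∈ Bᶜ} = {t : E | y + L t ∈ B} := by
      ext t
      simp
    rw [h3]
    exact h y
  have h2 : {x | ¬ x ∈ Bᶜ} = B := by
    ext x
    simp
  rw [ae_iff, h2] at h1
  exact h1

variable {n : ℕ} {S : Finset (Fin n × Ex n)}

/-- the parameters with a degenerate zero in the ball -/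
def Bad (S : Finset (Fin n × Ex n)) (R : ℝ) : Set (S → ℂ) :=
  {x | ∃ z : Fin n → ℂ, ‖z‖ ≤ R ∧ Ph x z = 0 ∧ (JJ x z (ez z)).det = 0}

theorem closed_proj {E V : Type*} [TopologicalSpace E] [NormedAddCommGroup V] [ProperSpace V] {P : E × V → Prop}
    (hP : IsClosed {v : E × V | P v}) (R : ℝ) : IsClosed {x : E | ∃ z : V, ‖z‖ ≤ R ∧ P (x, z)} := by
  have : CompactSpace (Metric.closedBall (0 : V) R) := isCompact_iff_compactSpace.1 (isCompact_closedBall 0 R)
  let g : E × Metric.closedBall (0 : V) R → E × V := fun v => (v.1, v.2.1)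
  have hg : Continuous g := continuous_fst.prodMk (continuous_subtype_val.comp continuous_snd)
  have h1 : IsClosed (g ⁻¹' {v : E × V | P v}) := hP.preimage hg
  have h2 := isClosedMap_fst_of_compactSpace (X := E) (Y := Metric.closedBall (0 : V) R) _ h1
  have h3 : {x : E | ∃ z : V, ‖z‖ ≤ R ∧ P (x, z)} = Prod.fst '' (g ⁻¹' {v : E × V | P v}) := by
    ext x
    constructor
    · rintro ⟨z, hz, h4⟩
      exact ⟨(x, ⟨z, by rwa [Metric.mem_closedBall, dist_zero_right]⟩), h4, rfl⟩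
    · rintro ⟨⟨x', z, hz⟩, h4, rfl⟩
      exact ⟨z, by rwa [Metric.mem_closedBall, dist_zero_right] at hz, h4⟩
  rw [h3]
  exact h2

theorem bad_closed (R : ℝ) : IsClosed (Bad S R) :=
  closed_proj (P := fun v : (S → ℂ) × (Fin n → ℂ) => Ph v.1 v.2 = 0 ∧ (JJ v.1 v.2 (ez v.2)).det = 0)
    ((isClosed_eq Ph_cont continuous_const).inter (isClosed_eq det_cont continuous_const)) R

/-- the constant terms move -/
def Lc {A : Type*} [CommRing A] (S : Finset (Fin n × Ex n)) : (Fin n → A) →ₗ[A] (S → A) where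
  toFun t q := if q.1.2 = 0 then t q.1.1 else 0
  map_add' s t := by
    funext q
    by_cases h : q.1.2 = 0
    · simp [h]
    · simp [h]
  map_smul' a t := by
    funext q
    by_cases h : q.1.2 = 0
    · simp [h]
    · simp [h]

theorem Lc_apply {A : Type*} [CommRing A] (t : Fin n → A) (q : S) : Lc S t q = if q.1.2 = 0 then t q.1.1 else 0 := rfl

theorem Ph_add' (x ξ : S → ℂ) (z : Fin n → ℂ) (j : Fin n) :
    Ph (x + ξ) z j = Ph x z j + ∑ q : S, if q.1.1 = j then ξ q * mo q.1.2 z (ez z) else 0 := by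
  have h1 := Ph_add x ξ 1 z j
  rwa [one_smul, one_mul] at h1

theorem dPj_add' (x ξ : S → ℂ) (v : Fin n ⊕ Fin n → ℂ) (j : Fin n) (o : Fin n ⊕ Fin n) :
    eval v (pderiv o (Pj (x + ξ) j)) = eval v (pderiv o (Pj x j)) +
      ∑ q : S, if q.1.1 = j then ξ q * eval v (pderiv o (monomial q.1.2 1)) else 0 := by
  rw [dPj_sum, dPj_sum, ← Finset.sum_add_distrib]
  refine Finset.sum_congr rfl fun q _ => ?_
  split_ifs
  · simp only [Pi.add_apply]
    ring
  · simp

/-- a sum with constant terms -/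
theorem sum_c (h0 : ∀ j, (j, 0) ∈ S) (t : Fin n → ℂ) (g : Ex n → ℂ) (j : Fin n) :
    (∑ q : S, if q.1.1 = j then (if q.1.2 = 0 then t q.1.1 else 0) * g q.1.2 else 0) = t j * g 0 := by
  rw [sum_at (fun q : S => (if q.1.2 = 0 then t q.1.1 else 0) * g q.1.2) ⟨(j, 0), h0 j⟩ j]
  · simp
  · intro q hq hj
    rw [if_neg fun h2 => hq (Subtype.ext (Prod.ext hj h2)), zero_mul]

theorem Ph_Lc (h0 : ∀ j, (j, 0) ∈ S) (x : S → ℂ) (t z : Fin n → ℂ) : Ph (x + Lc S t) z = Ph x z + t := by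
  funext j
  rw [Ph_add', Pi.add_apply]
  congr 1
  have h1 := sum_c h0 t (fun p => mo p z (ez z)) j
  rw [mo_zero, mul_one] at h1
  exact h1

theorem JJ_Lc (h0 : ∀ j, (j, 0) ∈ S) (x : S → ℂ) (t z y : Fin n → ℂ) : JJ (x + Lc S t) z y = JJ x z y := by
  have h1 : ∀ j o, eval (Sum.elim z y) (pderiv o (Pj (x + Lc S t) j)) = eval (Sum.elim z y) (pderiv o (Pj x j)) := by
    intro j o
    rw [dPj_add']
    have h2 := sum_c h0 t (fun p => eval (Sum.elim z y) (pderiv o (monomial p 1))) j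
    have h3 : (monomial (0 : Ex n) (1 : ℂ) : MvPolynomial (Fin n ⊕ Fin n) ℂ) = 1 := rfl
    rw [h3, pderiv_one, map_zero, mul_zero] at h2
    change _ + (∑ q : S, if q.1.1 = j then (if q.1.2 = 0 then t q.1.1 else 0) *
      eval (Sum.elim z y) (pderiv o (monomial q.1.2 1)) else 0) = _
    rw [h2, add_zero]
  ext j l
  simp only [JJ, Matrix.of_apply, h1]

/-- **Complex parameters.** -/
theorem bad_null (h0 : ∀ j, (j, 0) ∈ S) (R : ℝ) : (volume : Measure (S → ℂ)) (Bad S R) = 0 := by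
  refine null_lin (𝕜 := ℂ) (volume : Measure (Fin n → ℂ)) volume (Lc S) (bad_closed R).measurableSet fun y => ?_
  refine measure_mono_null (t := (fun z => - Ph y z) '' {z | (JJ y z (ez z)).det = 0}) ?_ ?_
  · rintro t ⟨z, -, hz1, hz2⟩
    rw [JJ_Lc h0] at hz2
    rw [Ph_Lc h0] at hz1
    exact ⟨z, hz2, (eq_neg_of_add_eq_zero_right hz1).symm⟩
  · refine sard volume (f' := fun z => - (Dl y z).restrictScalars ℝ)
      (fun z _ => (Ph_deriv y z).neg.restrictScalars ℝ) fun z hz => ?_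
    obtain ⟨v, hv, hv'⟩ := Matrix.exists_mulVec_eq_zero_iff.2 hz
    refine ⟨v, hv, ?_⟩
    change - (Dl y z v) = 0
    rw [Dl_apply, hv', neg_zero]

end Pool.Agent.V8H73.AN
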