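import Pool.Agent.V8H73.AN.Ind
import Pool.Agent.V8H73.AN.NullC
import Pool.Agent.N207.NR.Main
import Pool.Agent.FinVol2.AN
import Pool.Agent.Y563.SE.Alg

/-!
# The zeros and the coefficients of almost all systems of exponential equations are algebraically independent
-/

set_option autoImplicit false
set_option linter.unusedSectionVars false

open Set Filter MeasureTheory
open scoped Topology

namespace Pool.Agent.V8H73.AN

variable {n : ℕ} {S : Finset (Fin n × Ex n)}

/-- **The zeros in a ball near parameters without degenerate zeros.** -/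
theorem patch_S (hS : Four S) {R : ℝ} {x0 : S → ℂ} (h : x0 ∉ Bad S R) :
    ∃ (δ : ℝ) (N : ℕ) (ζ : Fin N → (S → ℂ) → Fin n → ℂ), 0 < δ ∧ Br (Metric.ball x0 δ) ζ ∧
      (Pool.Agent.N207.AX.Ind (Metric.ball x0 δ) fun (q : Fin N × Fin n) x => ζ q.1 x q.2) ∧
      ∀ x ∈ Metric.ball x0 δ, ∀ z, ‖z‖ ≤ R → Ph x z = 0 → ∃ i, ζ i x = z ∧ (JJ x z (ez z)).det ≠ 0 := by
  have hs : ∀ z, ‖z‖ ≤ R → Ph x0 z = 0 → (JJ x0 z (ez z)).det ≠ 0 := fun z hz h0 h1 => h ⟨z, hz, h0, h1⟩
  obtain ⟨δ, N, ζ, hδ, h1, h2, h3, h4, h5⟩ := patch (E := S → ℂ) (V := Fin n → ℂ)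
    (Φ := fun v => Ph v.1 v.2) Ph_an (D := Dl) (d := fun x z => (JJ x z (ez z)).det)
    (fun x z => Ph_deriv x z) (fun x z => Dl_inv) det_cont (x0 := x0) (R := R) hs
  have hB : Br (Metric.ball x0 δ) ζ := ⟨fun i => ⟨h1 i, h2 i, h3 i⟩, fun i j hij => ⟨x0, Metric.mem_ball_self hδ,
    h4 i j hij x0 (Metric.mem_ball_self hδ)⟩⟩
  refine ⟨δ, N, ζ, hδ, hB, br_ind hS Metric.isOpen_ball (convex_ball x0 δ).isPreconnected
    ⟨x0, Metric.mem_ball_self hδ⟩ hB, fun x hx z hz h0 => ?_⟩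
  obtain ⟨i, hi⟩ := h5 x hx z hz h0
  exact ⟨i, hi, by rw [← hi]; exact h3 i x hx⟩

/-- the functions are not zero on open sets -/
theorem null_rel {X : Type} [Fintype X] {σ : Type} [Fintype σ] {U : Set (X → ℂ)} (hU : IsOpen U)
    (hc : IsPreconnected U) {f : σ → (X → ℂ) → ℂ} (hf : ∀ i, AnalyticOnNhd ℂ (f i) U)
    (hI : Pool.Agent.N207.AX.Ind U f) {P : MvPolynomial (X ⊕ σ) ℂ} (hP : P ≠ 0) :
    (volume : Measure (X → ℂ)) {x | x ∈ U ∧ MvPolynomial.eval (Sum.elim x fun i => f i x) P = 0} = 0 := by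
  have : (volume : Measure (X → ℂ)).IsAddHaarMeasure := by
    rw [volume_pi]
    infer_instance
  have han : AnalyticOnNhd ℂ (fun x : X → ℂ => MvPolynomial.eval (Sum.elim x fun i => f i x) P) U := by
    have h1 : ∀ o : X ⊕ σ, AnalyticOnNhd ℂ (fun x : X → ℂ => (Sum.elim x fun i => f i x : _ → ℂ) o) U := by
      rintro (q | i)
      · exact (ContinuousLinearMap.proj (R := ℂ) (φ := fun _ : X => ℂ) q).analyticOnNhd U
      · exact hf i
    intro x hx
    induction P using MvPolynomial.induction_on with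
    | C a =>
      simp only [MvPolynomial.eval_C]
      exact analyticAt_const
    | add p q hp hq =>
      clear hP
      simp only [map_add]
      by_cases hp0 : p = 0
      · by_cases hq0 : q = 0
        · simp only [hp0, hq0, map_zero, add_zero]
          exact analyticAt_const
        · simp only [hp0, map_zero, zero_add]
          exact hq hq0
      · by_cases hq0 : q = 0
        · simp only [hq0, map_zero, add_zero]
          exact hp hp0
        · exact (hp hp0).add (hq hq0)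
    | mul_X p o hp =>
      simp only [map_mul, MvPolynomial.eval_X]
      have hp0 : p ≠ 0 := fun h => hP (by rw [h, zero_mul])
      exact (hp hp0).mul (h1 o x hx)
  refine Pool.Agent.FinVol2.AN.analytic_null volume U hU _ han fun O hO hOU hOne => ?_
  by_contra hcon
  push Not at hcon
  obtain ⟨t0, ht0⟩ := hOne
  refine hP (Pool.Agent.N207.NR.locInd hc hf hI (hOU ht0) P ?_)
  filter_upwards [hO.mem_nhds ht0] with t ht using hcon t ht

/-- one ball -/
theorem ae_R (hS : Four S) (K : Subfield ℂ) [Countable K] (R : ℝ) : ∀ᵐ x : S → ℂ, x ∉ Bad S R ∧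
    ∀ s : Finset (Fin n → ℂ), (∀ z ∈ s, ‖z‖ ≤ R ∧ Ph x z = 0) →
      AlgebraicIndependent K (Sum.elim x (fun q : s × Fin n => (q.1 : Fin n → ℂ) q.2) : S ⊕ (s × Fin n) → ℂ) := by
  have h1 : ∀ᵐ x : S → ℂ, x ∉ Bad S R := by
    rw [ae_iff]
    simp only [not_not]
    exact bad_null hS.h0 R
  have h2 : (volume : Measure (S → ℂ)) {x | x ∉ Bad S R ∧ ¬ ∀ s : Finset (Fin n → ℂ),
      (∀ z ∈ s, ‖z‖ ≤ R ∧ Ph x z = 0) →
      AlgebraicIndependent K (Sum.elim x (fun q : s × Fin n => (q.1 : Fin n → ℂ) q.2) : S ⊕ (s × Fin n) → ℂ)} = 0 := by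
    refine measure_null_of_locally_null _ fun x0 hx0 => ?_
    obtain ⟨δ, N, ζ, hδ, hB, hI, hcov⟩ := patch_S hS hx0.1
    have hcount := Pool.Agent.Y563.SE.countable_mvPolynomial (S ⊕ (Fin N × Fin n)) K
    refine ⟨⋃ p : {p : MvPolynomial (S ⊕ (Fin N × Fin n)) K // p ≠ 0}, {x | x ∈ Metric.ball x0 δ ∧
      MvPolynomial.eval (Sum.elim x fun q => ζ q.1 x q.2) (MvPolynomial.map (algebraMap K ℂ) p.1) = 0}, ?_, ?_⟩
    · rw [mem_nhdsWithin]
      refine ⟨Metric.ball x0 δ, Metric.isOpen_ball, Metric.mem_ball_self hδ, ?_⟩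
      rintro x ⟨hxb, -, hx⟩
      push Not at hx
      obtain ⟨s, hs, hni⟩ := hx
      have hex : ∀ z : s, ∃ i, ζ i x = z := fun z => by
        obtain ⟨i, hi, -⟩ := hcov x hxb z.1 (hs z.1 z.2).1 (hs z.1 z.2).2
        exact ⟨i, hi⟩
      choose e he using hex
      have hinj : Function.Injective e := fun z z' h => Subtype.ext (by rw [← he z, ← he z', h])
      have hni' : ¬ AlgebraicIndependent K (Sum.elim x (fun q => ζ q.1 x q.2) : S ⊕ (Fin N × Fin n) → ℂ) := by
        intro h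
        apply hni
        have h3 := h.comp (Sum.map id (Prod.map e id))
          (Function.injective_id.sumMap (hinj.prodMap Function.injective_id))
        have h4 : (Sum.elim x (fun q => ζ q.1 x q.2) : S ⊕ (Fin N × Fin n) → ℂ) ∘ Sum.map id (Prod.map e id) =
            Sum.elim x (fun q : s × Fin n => (q.1 : Fin n → ℂ) q.2) := by
          funext o
          rcases o with q | q
          · rfl
          · exact congrFun (he q.1) q.2
        rwa [h4] at h3
      rw [algebraicIndependent_iff] at hni'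
      push Not at hni'
      obtain ⟨p, hp1, hp2⟩ := hni'
      refine Set.mem_iUnion.2 ⟨⟨p, hp2⟩, hxb, ?_⟩
      rw [MvPolynomial.eval_map]
      exact hp1
    · refine measure_iUnion_null fun p => ?_
      refine null_rel Metric.isOpen_ball (convex_ball x0 δ).isPreconnected
        (f := fun (q : Fin N × Fin n) x => ζ q.1 x q.2) (fun q => (hB.b q.1).z q.2) hI fun h => p.2 ?_
      exact MvPolynomial.map_injective _ (algebraMap K ℂ).injective (by rw [h, map_zero])
  have h3 : ∀ᵐ x : S → ℂ, ¬ (x ∉ Bad S R ∧ ¬ ∀ s : Finset (Fin n → ℂ),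
      (∀ z ∈ s, ‖z‖ ≤ R ∧ Ph x z = 0) →
      AlgebraicIndependent K (Sum.elim x (fun q : s × Fin n => (q.1 : Fin n → ℂ) q.2) : S ⊕ (s × Fin n) → ℂ)) := by
    rw [ae_iff]
    simp only [not_not]
    exact h2
  filter_upwards [h1, h3] with x hx1 hx3
  refine ⟨hx1, ?_⟩
  by_contra hcon
  exact hx3 ⟨hx1, hcon⟩

/-- **Almost all systems.** -/
theorem ae_all (hS : Four S) (K : Subfield ℂ) [Countable K] : ∀ᵐ x : S → ℂ,
    (∀ z, Ph x z = 0 → (JJ x z (ez z)).det ≠ 0) ∧
    AlgebraicIndependent K (Sum.elim x fun q : {z : Fin n → ℂ // Ph x z = 0} × Fin n => (q.1 : Fin n → ℂ) q.2) := by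
  classical
  have h1 := ae_all_iff.2 fun R : ℕ => ae_R hS K (R : ℝ)
  filter_upwards [h1] with x hx
  constructor
  · intro z hz hd
    exact (hx ⌈‖z‖⌉₊).1 ⟨z, Nat.le_ceil _, hz, hd⟩
  · refine algebraicIndependent_of_finite_type fun t ht => ?_
    let s : Finset (Fin n → ℂ) := ht.toFinset.biUnion fun o => o.elim (fun _ => ∅) fun q => {(q.1 : Fin n → ℂ)}
    have hs : ∀ q : {z : Fin n → ℂ // Ph x z = 0} × Fin n, Sum.inr q ∈ t → (q.1 : Fin n → ℂ) ∈ s := by
      intro q hq
      refine Finset.mem_biUnion.2 ⟨Sum.inr q, ht.mem_toFinset.2 hq, ?_⟩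
      exact Finset.mem_singleton_self _
    have hs2 : ∀ z ∈ s, ‖z‖ ≤ ((s.sup fun z => ⌈‖z‖⌉₊ : ℕ) : ℝ) ∧ Ph x z = 0 := by
      intro z hz
      constructor
      · refine (Nat.le_ceil _).trans ?_
        exact_mod_cast Finset.le_sup (f := fun z : Fin n → ℂ => ⌈‖z‖⌉₊) hz
      · obtain ⟨o, -, ho⟩ := Finset.mem_biUnion.1 hz
        rcases o with o | q
        · simp at ho
        · rw [Sum.elim_inr, Finset.mem_singleton] at ho
          rw [ho]
          exact q.1.2
    have h2 := (hx (s.sup fun z => ⌈‖z‖⌉₊)).2 s hs2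
    let g : t → S ⊕ (s × Fin n) := fun i => match i with
      | ⟨Sum.inl q, _⟩ => Sum.inl q
      | ⟨Sum.inr q, h⟩ => Sum.inr (⟨q.1.1, hs q h⟩, q.2)
    have hg : Function.Injective g := by
      rintro ⟨a | a, ha⟩ ⟨b | b, hb⟩ h
      · simpa [g] using h
      · simp [g] at h
      · simp [g] at h
      · simp only [g, Sum.inr.injEq, Prod.mk.injEq, Subtype.mk.injEq] at h
        have h3 : a = b := Prod.ext (Subtype.ext h.1) h.2
        subst h3
        rfl
    have h3 := h2.comp g hg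
    have h4 : ((Sum.elim x (fun q : s × Fin n => (q.1 : Fin n → ℂ) q.2) : S ⊕ (s × Fin n) → ℂ) ∘ g) = fun i : t =>
        (Sum.elim x (fun q : {z : Fin n → ℂ // Ph x z = 0} × Fin n => (q.1 : Fin n → ℂ) q.2) : _ → ℂ) i := by
      funext i
      rcases i with ⟨a | a, ha⟩
      · rfl
      · rfl
    rwa [h4] at h3

end Pool.Agent.V8H73.AN
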