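import Pool.Agent.V8H73.AN.Mov

/-!
# Zeros of systems as functions of the coefficients: generic points
-/

set_option autoImplicit false
set_option linter.unusedSectionVars false

open Set Filter MvPolynomial
open scoped Topology

namespace Pool.Agent.V8H73.AN

variable {n : ℕ} {S : Finset (Fin n × Ex n)}

theorem ev_Pj_sum (x : S → ℂ) (v : Fin n ⊕ Fin n → ℂ) (j : Fin n) :
    eval v (Pj x j) = ∑ q : S, if q.1.1 = j then x q * eval v (monomial q.1.2 1) else 0 := by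
  unfold Pj
  rw [map_sum]
  refine Finset.sum_congr rfl fun q _ => ?_
  split_ifs
  · have h1 : monomial q.1.2 (x q) = C (x q) * monomial q.1.2 1 := by rw [C_mul_monomial, mul_one]
    rw [h1, map_mul, eval_C]
  · rw [map_zero]

theorem ev_Pj_add (x ξ : S → ℂ) (t : ℂ) (v : Fin n ⊕ Fin n → ℂ) (j : Fin n) :
    eval v (Pj (x + t • ξ) j) = eval v (Pj x j) +
      t * ∑ q : S, if q.1.1 = j then ξ q * eval v (monomial q.1.2 1) else 0 := by
  rw [ev_Pj_sum, ev_Pj_sum, Finset.mul_sum, ← Finset.sum_add_distrib]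
  refine Finset.sum_congr rfl fun q _ => ?_
  split_ifs
  · simp only [Pi.add_apply, Pi.smul_apply, smul_eq_mul]
    ring
  · simp

theorem dPj_add (x ξ : S → ℂ) (t : ℂ) (v : Fin n ⊕ Fin n → ℂ) (j : Fin n) (o : Fin n ⊕ Fin n) :
    eval v (pderiv o (Pj (x + t • ξ) j)) = eval v (pderiv o (Pj x j)) +
      t * ∑ q : S, if q.1.1 = j then ξ q * eval v (pderiv o (monomial q.1.2 1)) else 0 := by
  rw [dPj_sum, dPj_sum, Finset.mul_sum, ← Finset.sum_add_distrib]
  refine Finset.sum_congr rfl fun q _ => ?_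
  split_ifs
  · simp only [Pi.add_apply, Pi.smul_apply, smul_eq_mul]
    ring
  · simp

/-- a sum with two terms in each equation -/
theorem sum_two {A : Type*} [CommRing A] (e : Fin n → Ex n) (he : ∀ j, (j, e j) ∈ S) (h0 : ∀ j, (j, 0) ∈ S)
    (hne : ∀ j, e j ≠ 0) (a b : Fin n → A) (g : Ex n → A) (j : Fin n) :
    (∑ q : S, if q.1.1 = j then
      (if q.1.2 = e q.1.1 then a q.1.1 else if q.1.2 = 0 then b q.1.1 else 0) * g q.1.2 else 0) =
      a j * g (e j) + b j * g 0 := by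
  have h1 : ∀ q : S, (if q.1.1 = j then
      (if q.1.2 = e q.1.1 then a q.1.1 else if q.1.2 = 0 then b q.1.1 else 0) * g q.1.2 else 0) =
      (if q.1.1 = j then (if q.1.2 = e q.1.1 then a q.1.1 * g q.1.2 else 0) else 0) +
      (if q.1.1 = j then (if q.1.2 = 0 then b q.1.1 * g q.1.2 else 0) else 0) := by
    intro q
    by_cases hj : q.1.1 = j
    · simp only [if_pos hj]
      by_cases hq : q.1.2 = e q.1.1
      · have : q.1.2 ≠ 0 := by rw [hq]; exact hne _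
        rw [if_pos hq, if_pos hq, if_neg this, add_zero]
      · rw [if_neg hq, if_neg hq, zero_add]
        split_ifs <;> ring
    · simp only [if_neg hj, add_zero]
  rw [Finset.sum_congr rfl fun q _ => h1 q, Finset.sum_add_distrib,
    sum_at (fun q : S => if q.1.2 = e q.1.1 then a q.1.1 * g q.1.2 else 0) ⟨(j, e j), he j⟩ j,
    sum_at (fun q : S => if q.1.2 = 0 then b q.1.1 * g q.1.2 else 0) ⟨(j, 0), h0 j⟩ j]
  · simp
  · intro q hq hj
    refine if_neg fun h2 => hq (Subtype.ext (Prod.ext hj h2))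
  · intro q hq hj
    refine if_neg fun h2 => hq (Subtype.ext (Prod.ext hj ?_))
    rw [h2, hj]

theorem single_ne (o : Fin n ⊕ Fin n) : (Finsupp.single o 1 : Ex n) ≠ 0 := by
  rw [Ne, Finsupp.single_eq_zero]
  exact one_ne_zero

/-- the partial Jacobian is generically invertible -/
theorem BB_ne (hS : Four S) {U : Set (S → ℂ)} {ζ : (S → ℂ) → Fin n → ℂ} {x0 : S → ℂ} (hU : IsOpen U) (hx0 : x0 ∈ U)
    (hζ : ContinuousAt ζ x0) (h0 : ∀ x ∈ U, Ph x (ζ x) = 0) (h1 : (JJ x0 (ζ x0) (ez (ζ x0))).det ≠ 0) :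
    ∃ x ∈ U, (BB x (ζ x) (ez (ζ x))).det ≠ 0 := by
  by_contra hcon
  push Not at hcon
  set y0 := ez (ζ x0) with hy0
  let ξ : S → ℂ := fun q => if q.1.2 = Finsupp.single (Sum.inr q.1.1) 1 then 1 else if q.1.2 = 0 then - y0 q.1.1 else 0
  have hsum : ∀ (g : Ex n → ℂ) (j : Fin n), (∑ q : S, if q.1.1 = j then ξ q * g q.1.2 else 0) =
      1 * g (Finsupp.single (Sum.inr j) 1) + (- y0 j) * g 0 := fun g j =>
    sum_two (fun j => Finsupp.single (Sum.inr j) 1) (fun j => hS.hy j j) hS.h0 (fun j => single_ne _) (fun _ => 1)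
      (fun j => - y0 j) g j
  have hm := moving hU hx0 hζ h0 h1 (ξ := ξ) fun j => by
    rw [hsum (fun p => mo p (ζ x0) (ez (ζ x0))) j, mo_y, mo_zero]
    ring
  have hB : ∀ t : ℂ, BB (x0 + t • ξ) (ζ x0) y0 = Matrix.scalar (Fin n) t - (- BB x0 (ζ x0) y0) := by
    intro t
    ext j l
    unfold BB
    rw [Matrix.of_apply, dPj_add, hsum (fun p => eval (Sum.elim (ζ x0) y0) (pderiv (Sum.inr l) (monomial p 1))) j]
    have e1 : (monomial (Finsupp.single (Sum.inr j) 1) (1 : ℂ) : MvPolynomial (Fin n ⊕ Fin n) ℂ) = X (Sum.inr j) := rfl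
    have e2 : (monomial (0 : Ex n) (1 : ℂ) : MvPolynomial (Fin n ⊕ Fin n) ℂ) = 1 := rfl
    simp only [e1, e2, pderiv_X, pderiv_one, map_zero, mul_zero, add_zero, one_mul]
    rw [Matrix.sub_apply, Matrix.neg_apply, Matrix.of_apply, Matrix.scalar_apply, Matrix.diagonal_apply]
    by_cases hjl : j = l
    · subst hjl
      simp
      ring
    · have : (Sum.inr l : Fin n ⊕ Fin n) ≠ Sum.inr j := fun h => hjl (Sum.inr_injective h).symm
      rw [Pi.single_eq_of_ne (Ne.symm this), if_neg hjl]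
      simp
  have hroot : ∀ᶠ t : ℂ in 𝓝 0, ((- BB x0 (ζ x0) y0).charpoly).IsRoot t := by
    filter_upwards [hm] with t ht
    rw [Polynomial.IsRoot.def, Matrix.eval_charpoly, ← hB t]
    have h2 := hcon _ ht.1
    rw [ht.2] at h2
    exact h2
  have hinf : {t : ℂ | ((- BB x0 (ζ x0) y0).charpoly).IsRoot t}.Infinite := infinite_of_mem_nhds 0 hroot
  exact (Matrix.charpoly_monic _).ne_zero (Polynomial.eq_zero_of_infinite_isRoot _ hinf)

/-- a coordinate is zero -/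
theorem coord_zero (hS : Four S) {U : Set (S → ℂ)} {ζ : (S → ℂ) → Fin n → ℂ} {x0 : S → ℂ} (hU : IsOpen U) (hx0 : x0 ∈ U)
    (hζ : ContinuousAt ζ x0) (h0 : ∀ x ∈ U, Ph x (ζ x) = 0) (h1 : (JJ x0 (ζ x0) (ez (ζ x0))).det ≠ 0)
    (h : ∀ x ∈ U, ∀ j, eval (Sum.elim 0 (ez (ζ x))) (Pj x j) = 0) (l : Fin n) : ζ x0 l = 0 := by
  set y0 := ez (ζ x0) with hy0
  let ξ : S → ℂ := fun q => if q.1.2 = Finsupp.single (Sum.inl l) 1 then 1 else if q.1.2 = 0 then - ζ x0 l else 0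
  have hsum : ∀ (g : Ex n → ℂ) (j : Fin n), (∑ q : S, if q.1.1 = j then ξ q * g q.1.2 else 0) =
      1 * g (Finsupp.single (Sum.inl l) 1) + (- ζ x0 l) * g 0 := fun g j =>
    sum_two (fun _ => Finsupp.single (Sum.inl l) 1) (fun j => hS.hx j l) hS.h0 (fun j => single_ne _) (fun _ => 1)
      (fun _ => - ζ x0 l) g j
  have hm := moving hU hx0 hζ h0 h1 (ξ := ξ) fun j => by
    rw [hsum (fun p => mo p (ζ x0) (ez (ζ x0))) j, mo_x, mo_zero]
    ring
  have hm' : ∀ᶠ t : ℂ in 𝓝[≠] 0, x0 + t • ξ ∈ U ∧ ζ (x0 + t • ξ) = ζ x0 := hm.filter_mono nhdsWithin_le_nhds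
  obtain ⟨t, ⟨ht1, ht2⟩, ht3⟩ := (hm'.and eventually_mem_nhdsWithin).exists
  have k1 := h _ ht1 l
  rw [ht2, ev_Pj_add, h x0 hx0 l, zero_add,
    hsum (fun p => eval (Sum.elim 0 (ez (ζ x0))) (monomial p 1)) l] at k1
  have e1 : (monomial (Finsupp.single (Sum.inl l) 1) (1 : ℂ) : MvPolynomial (Fin n ⊕ Fin n) ℂ) = X (Sum.inl l) := rfl
  have e2 : (monomial (0 : Ex n) (1 : ℂ) : MvPolynomial (Fin n ⊕ Fin n) ℂ) = 1 := rfl
  simp only [e1, e2, eval_X, map_one, mul_one, Sum.elim_inl, Pi.zero_apply, zero_add, mul_zero] at k1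
  have k2 := (mul_eq_zero.1 k1).resolve_left ht3
  exact neg_eq_zero.1 k2

/-- the derivative of a zero -/
theorem zero_deriv {U : Set (S → ℂ)} (hU : IsOpen U) {ζ : (S → ℂ) → Fin n → ℂ} (hζ : AnalyticOnNhd ℂ ζ U)
    (h0 : ∀ x ∈ U, Ph x (ζ x) = 0) {x : S → ℂ} (hx : x ∈ U) (q : S) (j : Fin n) :
    (JJ x (ζ x) (ez (ζ x))).mulVec (fderiv ℂ ζ x (Pi.single q 1)) j =
      - if j = q.1.1 then mo q.1.2 (ζ x) (ez (ζ x)) else 0 := by
  set ζ' := fderiv ℂ ζ x (Pi.single q 1) with hζ'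
  let m : (Fin n → ℂ) → ℂ := fun w => if q.1.1 = j then mo q.1.2 w (ez w) else 0
  have hline : HasDerivAt (fun t : ℂ => x + t • (Pi.single q (1 : ℂ) : S → ℂ)) (Pi.single q 1) 0 := by
    have h1 := ((hasDerivAt_id (0 : ℂ)).smul_const (Pi.single q (1 : ℂ) : S → ℂ)).const_add x
    simpa using h1
  have hz1 : HasDerivAt (fun t : ℂ => ζ (x + t • (Pi.single q (1 : ℂ) : S → ℂ))) ζ' 0 := by
    have h1 : HasFDerivAt ζ (fderiv ℂ ζ x) (x + (0 : ℂ) • (Pi.single q (1 : ℂ) : S → ℂ)) := by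
      rw [zero_smul, add_zero]
      exact (hζ x hx).differentiableAt.hasFDerivAt
    exact h1.comp_hasDerivAt (0 : ℂ) hline
  have hx00 : x + (0 : ℂ) • (Pi.single q (1 : ℂ) : S → ℂ) = x := by rw [zero_smul, add_zero]
  have hA : HasDerivAt (fun t : ℂ => Ph x (ζ (x + t • (Pi.single q (1 : ℂ) : S → ℂ))) j) (Dl x (ζ x) ζ' j) 0 := by
    have h1 : HasFDerivAt (fun z => Ph x z j) ((ContinuousLinearMap.proj j).comp (Dl x (ζ x)))
        (ζ (x + (0 : ℂ) • (Pi.single q (1 : ℂ) : S → ℂ))) := by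
      rw [hx00]
      exact (hasFDerivAt_apply j _).comp _ (Ph_deriv x (ζ x))
    exact h1.comp_hasDerivAt (0 : ℂ) hz1
  have hm : AnalyticAt ℂ m (ζ x) := by
    by_cases h : q.1.1 = j
    · simp only [m, if_pos h]
      exact ev_an _ _
    · simp only [m, if_neg h]
      exact analyticAt_const
  have hB : HasDerivAt (fun t : ℂ => t * m (ζ (x + t • (Pi.single q (1 : ℂ) : S → ℂ)))) (m (ζ x)) 0 := by
    have h1 : HasFDerivAt m (fderiv ℂ m (ζ x)) (ζ (x + (0 : ℂ) • (Pi.single q (1 : ℂ) : S → ℂ))) := by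
      rw [hx00]
      exact hm.differentiableAt.hasFDerivAt
    have h2 := (hasDerivAt_id (0 : ℂ)).fun_mul (h1.comp_hasDerivAt (0 : ℂ) hz1)
    refine h2.congr_deriv ?_
    simp only [id_eq, Function.comp_apply, one_mul, zero_mul, add_zero, hx00]
  have hzero : (fun t : ℂ => Ph x (ζ (x + t • (Pi.single q (1 : ℂ) : S → ℂ))) j +
      t * m (ζ (x + t • (Pi.single q (1 : ℂ) : S → ℂ)))) =ᶠ[𝓝 0] fun _ => 0 := by
    have h1 : ∀ᶠ t : ℂ in 𝓝 0, x + t • (Pi.single q (1 : ℂ) : S → ℂ) ∈ U :=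
      hline.continuousAt.eventually (by simpa using hU.mem_nhds hx)
    filter_upwards [h1] with t ht
    have h2 := congrFun (h0 _ ht) j
    rw [Ph_add, sum_at (fun q' : S => (Pi.single q (1 : ℂ) : S → ℂ) q' * mo q'.1.2 _ _) q j (fun q' hq' _ => by
      rw [Pi.single_eq_of_ne hq', zero_mul]), Pi.single_eq_same, one_mul, Pi.zero_apply] at h2
    exact h2
  have h1 := ((hA.add hB).congr_of_eventuallyEq hzero.symm).unique (hasDerivAt_const (0 : ℂ) (0 : ℂ))
  rw [Dl_apply] at h1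
  have h2 : m (ζ x) = if j = q.1.1 then mo q.1.2 (ζ x) (ez (ζ x)) else 0 := by
    by_cases h : q.1.1 = j
    · rw [if_pos h.symm]
      exact if_pos h
    · rw [if_neg (Ne.symm h)]
      exact if_neg h
  rw [← h2]
  exact eq_neg_of_add_eq_zero_left h1

end Pool.Agent.V8H73.AN
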