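import Pool.Agent.V8H73.AN.NullC
import Pool.Agent.V8H73.AN.Gen

/-!
# Real systems with degenerate zeros are a null set
-/

set_option autoImplicit false
set_option linter.unusedSectionVars false

open MeasureTheory Set Filter MvPolynomial
open scoped Topology

namespace Pool.Agent.V8H73.AN

variable {n : ℕ} {S : Finset (Fin n × Ex n)}

/-- real coefficients -/
noncomputable def cr (u : S → ℝ) : S → ℂ := fun q => (u q : ℂ)

theorem cr_cont : Continuous (cr : (S → ℝ) → S → ℂ) :=
  continuous_pi fun q => Complex.continuous_ofReal.comp (continuous_apply q)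

/-- real points -/
noncomputable def ιR (n : ℕ) : (Fin n → ℝ) →L[ℝ] (Fin n → ℂ) :=
  ContinuousLinearMap.pi fun l => Complex.ofRealCLM.comp (ContinuousLinearMap.proj l)

theorem ιR_apply (s : Fin n → ℝ) (l : Fin n) : ιR n s l = (s l : ℂ) := rfl

theorem cr_Lc (y : S → ℝ) (t : Fin n → ℝ) : cr (y + Lc S t) = cr y + Lc S (ιR n t) := by
  funext q
  unfold cr
  rw [Pi.add_apply, Pi.add_apply, Lc_apply, Lc_apply]
  split_ifs
  · push_cast
    rfl
  · push_cast
    rfl

theorem JJ_real (u : S → ℝ) (s : Fin n → ℝ) :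
    JJ (cr u) (ιR n s) (ez (ιR n s)) = (JJ u s fun l => Real.exp (s l)).map Complex.ofRealHom := by
  rw [JJ_map]
  have h1 : ez (ιR n s) = fun l => Complex.ofRealHom (Real.exp (s l)) := by
    funext l
    unfold ez
    rw [ιR_apply]
    exact (Complex.ofReal_exp _).symm
  rw [h1]
  rfl

/-- a degenerate zero -/
def Dg (x : S → ℂ) (z : Fin n → ℂ) : Prop := Ph x z = 0 ∧ (JJ x z (ez z)).det = 0

theorem dg_closed : IsClosed {v : (S → ℂ) × (Fin n → ℂ) | Dg v.1 v.2} :=
  (isClosed_eq Ph_cont continuous_const).inter (isClosed_eq det_cont continuous_const)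

/-- real zeros -/
theorem null_real (h0 : ∀ j, (j, 0) ∈ S) (R : ℝ) : (volume : Measure (S → ℝ)) {u | ∃ s : Fin n → ℝ, ‖s‖ ≤ R ∧
    Dg (cr u) (ιR n s)} = 0 := by
  have hg : Continuous fun v : (S → ℝ) × (Fin n → ℝ) => (cr v.1, ιR n v.2) :=
    (cr_cont.comp continuous_fst).prodMk ((ιR n).continuous.comp continuous_snd)
  have hcl : IsClosed {u : S → ℝ | ∃ s : Fin n → ℝ, ‖s‖ ≤ R ∧ Dg (cr u) (ιR n s)} := closed_proj
    (P := fun v : (S → ℝ) × (Fin n → ℝ) => Dg (cr v.1) (ιR n v.2)) (dg_closed.preimage hg) R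
  refine null_lin (𝕜 := ℝ) (volume : Measure (Fin n → ℝ)) volume (Lc S) hcl.measurableSet fun y => ?_
  let re : (Fin n → ℂ) →L[ℝ] (Fin n → ℝ) :=
    ContinuousLinearMap.pi fun l => Complex.reCLM.comp (ContinuousLinearMap.proj l)
  refine measure_mono_null (t := (fun s => - re (Ph (cr y) (ιR n s))) ''
    {s | (JJ (cr y) (ιR n s) (ez (ιR n s))).det = 0}) ?_ ?_
  · rintro t ⟨s, -, hz1, hz2⟩
    simp only [cr_Lc] at hz1 hz2
    rw [JJ_Lc h0] at hz2
    rw [Ph_Lc h0] at hz1
    refine ⟨s, hz2, ?_⟩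
    have h1 := congrArg re hz1
    rw [map_add, map_zero] at h1
    have h2 : re (ιR n t) = t := rfl
    rw [h2] at h1
    exact (eq_neg_of_add_eq_zero_right h1).symm
  · refine sard volume (f' := fun s => - (re.comp (((Dl (cr y) (ιR n s)).restrictScalars ℝ).comp (ιR n))))
      (fun s _ => ?_) fun s hs => ?_
    · have h1 : HasFDerivAt (fun s => Ph (cr y) (ιR n s)) (((Dl (cr y) (ιR n s)).restrictScalars ℝ).comp (ιR n)) s :=
        ((Ph_deriv (cr y) (ιR n s)).restrictScalars ℝ).comp s (ιR n).hasFDerivAt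
      exact (re.hasFDerivAt.comp s h1).neg
    · have h1 : (JJ y s fun l => Real.exp (s l)).det = 0 := by
        have h2 : (JJ (cr y) (ιR n s) (ez (ιR n s))).det = 0 := hs
        rw [JJ_real] at h2
        have h3 : ((JJ y s fun l => Real.exp (s l)).map Complex.ofRealHom).det =
            Complex.ofRealHom (JJ y s fun l => Real.exp (s l)).det := (RingHom.map_det _ _).symm
        rw [h3] at h2
        exact Complex.ofReal_eq_zero.1 h2
      obtain ⟨v, hv, hv'⟩ := Matrix.exists_mulVec_eq_zero_iff.2 h1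
      refine ⟨v, hv, ?_⟩
      have h2 : Dl (cr y) (ιR n s) (ιR n v) = 0 := by
        rw [Dl_apply, JJ_real]
        funext j
        have h3 := congrArg (fun r : ℝ => (r : ℂ)) (congrFun hv' j)
        change ∑ l, Complex.ofRealHom ((JJ y s fun l => Real.exp (s l)) j l) * (v l : ℂ) = 0
        change ((∑ l, (JJ y s fun l => Real.exp (s l)) j l * v l : ℝ) : ℂ) = ((0 : ℝ) : ℂ) at h3
        push_cast at h3
        exact h3
      change - re (Dl (cr y) (ιR n s) (ιR n v)) = 0
      rw [h2, map_zero, neg_zero]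

/-- the coefficients of `1` and of one variable move -/
noncomputable def Lx (S : Finset (Fin n × Ex n)) (l : Fin n) : (Fin n → ℂ) →ₗ[ℝ] (S → ℝ) where
  toFun w q := if q.1.2 = Finsupp.single (Sum.inl l) 1 then (w q.1.1).im else if q.1.2 = 0 then (w q.1.1).re else 0
  map_add' s t := by
    funext q
    change (if q.1.2 = Finsupp.single (Sum.inl l) 1 then ((s + t) q.1.1).im else
      if q.1.2 = 0 then ((s + t) q.1.1).re else 0) =
      (if q.1.2 = Finsupp.single (Sum.inl l) 1 then (s q.1.1).im else if q.1.2 = 0 then (s q.1.1).re else 0) +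
      (if q.1.2 = Finsupp.single (Sum.inl l) 1 then (t q.1.1).im else if q.1.2 = 0 then (t q.1.1).re else 0)
    split_ifs <;> simp
  map_smul' a t := by
    funext q
    change (if q.1.2 = Finsupp.single (Sum.inl l) 1 then ((a • t) q.1.1).im else
      if q.1.2 = 0 then ((a • t) q.1.1).re else 0) =
      a * (if q.1.2 = Finsupp.single (Sum.inl l) 1 then (t q.1.1).im else if q.1.2 = 0 then (t q.1.1).re else 0)
    split_ifs <;> simp

theorem Ph_Lx (hS : Four S) (l : Fin n) (y : S → ℝ) (w z : Fin n → ℂ) (j : Fin n) :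
    Ph (cr (y + Lx S l w)) z j = Ph (cr y) z j + ((w j).im : ℂ) * z l + ((w j).re : ℂ) := by
  have h1 : cr (y + Lx S l w) = cr y + fun q : S => if q.1.2 = Finsupp.single (Sum.inl l) 1 then ((w q.1.1).im : ℂ)
      else if q.1.2 = 0 then ((w q.1.1).re : ℂ) else 0 := by
    funext q
    unfold cr
    rw [Pi.add_apply, Pi.add_apply]
    have h2 : Lx S l w q = if q.1.2 = Finsupp.single (Sum.inl l) 1 then (w q.1.1).im
      else if q.1.2 = 0 then (w q.1.1).re else 0 := rfl
    rw [h2]
    split_ifs <;> push_cast <;> rfl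
  rw [h1, Ph_add']
  have h2 := sum_two (fun _ => Finsupp.single (Sum.inl l) 1) (fun j => hS.hx j l) hS.h0 (fun j => single_ne _)
    (fun j => ((w j).im : ℂ)) (fun j => ((w j).re : ℂ)) (fun p => mo p z (ez z)) j
  rw [mo_x, mo_zero, mul_one] at h2
  rw [h2]
  ring

theorem Dl_Lx (hS : Four S) (l : Fin n) (y : S → ℝ) (w z v : Fin n → ℂ) (j : Fin n) :
    Dl (cr (y + Lx S l w)) z v j = Dl (cr y) z v j + ((w j).im : ℂ) * v l := by
  have h1 : HasFDerivAt (fun z => Ph (cr (y + Lx S l w)) z j) ((pl j).comp (Dl (cr (y + Lx S l w)) z)) z :=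
    (pl_deriv j _).comp z (Ph_deriv _ z)
  have h2 : HasFDerivAt (fun z => Ph (cr y) z j + ((w j).im : ℂ) * z l + ((w j).re : ℂ))
      ((pl j).comp (Dl (cr y) z) + ((w j).im : ℂ) • pl l) z :=
    (((pl_deriv j _).comp z (Ph_deriv _ z)).add ((pl_deriv l z).const_mul _)).add_const _
  have h3 : (fun z => Ph (cr (y + Lx S l w)) z j) = fun z => Ph (cr y) z j + ((w j).im : ℂ) * z l + ((w j).re : ℂ) :=
    funext fun z => Ph_Lx hS l y w z j
  rw [h3] at h1
  have h4 := congrArg (fun L => L v) (h1.unique h2)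
  exact h4

/-- zeros with a coordinate which is not real -/
theorem null_nonreal (hS : Four S) (R : ℝ) (l : Fin n) {c : ℝ} (hc : 0 < c) :
    (volume : Measure (S → ℝ)) {u | ∃ z : Fin n → ℂ, ‖z‖ ≤ R ∧ (c ≤ |(z l).im| ∧ Dg (cr u) z)} = 0 := by
  have hg : Continuous fun v : (S → ℝ) × (Fin n → ℂ) => (cr v.1, v.2) := (cr_cont.comp continuous_fst).prodMk continuous_snd
  have hc1 : IsClosed {v : (S → ℝ) × (Fin n → ℂ) | c ≤ |(v.2 l).im|} :=
    isClosed_le continuous_const ((Complex.continuous_im.comp ((continuous_apply l).comp continuous_snd)).abs)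
  have hcl : IsClosed {u : S → ℝ | ∃ z : Fin n → ℂ, ‖z‖ ≤ R ∧ (c ≤ |(z l).im| ∧ Dg (cr u) z)} := closed_proj
    (P := fun v : (S → ℝ) × (Fin n → ℂ) => c ≤ |(v.2 l).im| ∧ Dg (cr v.1) v.2) (hc1.inter (dg_closed.preimage hg)) R
  refine null_lin (𝕜 := ℝ) (volume : Measure (Fin n → ℂ)) volume (Lx S l) hcl.measurableSet fun y => ?_
  let p : Fin n → (Fin n → ℂ) → ℝ := fun j z => - (Ph (cr y) z j).im / (z l).im
  let f : (Fin n → ℂ) → (Fin n → ℂ) := fun z j => - (Ph (cr y) z j + (p j z : ℂ) * z l) + (p j z : ℂ) * Complex.I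
  have hp : ∀ (z : Fin n → ℂ) j, (z l).im ≠ 0 → (Ph (cr y) z j + (p j z : ℂ) * z l).im = 0 := by
    intro z j hz
    simp only [p, Complex.add_im, Complex.mul_im, Complex.ofReal_re, Complex.ofReal_im, zero_mul, add_zero]
    field_simp
    ring
  refine measure_mono_null (t := f '' {z | (z l).im ≠ 0 ∧ (JJ (cr (y + Lx S l (f z))) z (ez z)).det = 0}) ?_ ?_
  · rintro w ⟨z, -, hz0, hz1, hz2⟩
    have him : (z l).im ≠ 0 := fun h => by
      change c ≤ |(z l).im| at hz0
      rw [h, abs_zero] at hz0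
      linarith
    have hw : f z = w := by
      funext j
      have h1 : Ph (cr (y + Lx S l w)) z j = 0 := congrFun hz1 j
      rw [Ph_Lx hS] at h1
      have h2 := congrArg Complex.im h1
      simp only [Complex.add_im, Complex.mul_im, Complex.ofReal_re, Complex.ofReal_im, zero_mul, add_zero,
        Complex.zero_im] at h2
      have h3 : p j z = (w j).im := by
        simp only [p]
        field_simp
        linear_combination -h2
      simp only [f, h3]
      have h4 : Ph (cr y) z j + ((w j).im : ℂ) * z l = - ((w j).re : ℂ) := by linear_combination h1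
      rw [h4, neg_neg, Complex.re_add_im]
    refine ⟨z, ⟨him, ?_⟩, hw⟩
    rw [hw]
    exact hz2
  · have hHd : ∀ j z, HasFDerivAt (fun z => Ph (cr y) z j) (((pl j).comp (Dl (cr y) z)).restrictScalars ℝ) z :=
      fun j z => ((pl_deriv j _).comp z (Ph_deriv _ z)).restrictScalars ℝ
    have hzd : ∀ z, HasFDerivAt (fun z : Fin n → ℂ => z l) ((pl l).restrictScalars ℝ) z :=
      fun z => (pl_deriv l z).restrictScalars ℝ
    have hpd : ∀ j z, (z l).im ≠ 0 → ∃ p' : (Fin n → ℂ) →L[ℝ] ℝ, HasFDerivAt (p j) p' z := by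
      intro j z hz
      have h1 : HasFDerivAt (fun z => (Ph (cr y) z j).im)
          (Complex.imCLM.comp (((pl j).comp (Dl (cr y) z)).restrictScalars ℝ)) z :=
        Complex.imCLM.hasFDerivAt.comp z (hHd j z)
      have h2 : HasFDerivAt (fun z : Fin n → ℂ => (z l).im) (Complex.imCLM.comp ((pl l).restrictScalars ℝ)) z :=
        Complex.imCLM.hasFDerivAt.comp z (hzd z)
      have h3 : DifferentiableAt ℝ (p j) z := by
        have h4 : DifferentiableAt ℝ (fun z : Fin n → ℂ => - (Ph (cr y) z j).im * ((z l).im)⁻¹) z :=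
          (h1.differentiableAt.neg).mul (h2.differentiableAt.inv hz)
        exact h4
      exact ⟨_, h3.hasFDerivAt⟩
    choose! p' hp' using hpd
    have hfd : ∀ z, (z l).im ≠ 0 → HasFDerivAt f (ContinuousLinearMap.pi fun j =>
        - (((pl j).comp (Dl (cr y) z)).restrictScalars ℝ + ((p j z : ℂ) • (pl l).restrictScalars ℝ +
          z l • Complex.ofRealCLM.comp (p' j z))) + Complex.I • Complex.ofRealCLM.comp (p' j z)) z := by
      intro z hz
      refine hasFDerivAt_pi.2 fun j => ?_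
      have h1 : HasFDerivAt (fun z => (p j z : ℂ)) (Complex.ofRealCLM.comp (p' j z)) z :=
        Complex.ofRealCLM.hasFDerivAt.comp z (hp' j z hz)
      have h2 : HasFDerivAt (fun z => (p j z : ℂ) * z l) ((p j z : ℂ) • (pl l).restrictScalars ℝ +
          z l • Complex.ofRealCLM.comp (p' j z)) z := h1.mul (hzd z)
      have h3 : HasFDerivAt (fun z => (p j z : ℂ) * Complex.I) (Complex.I • Complex.ofRealCLM.comp (p' j z)) z :=
        h1.mul_const Complex.I
      exact ((hHd j z).add h2).neg.add h3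
    refine sard volume (fun z hz => hfd z hz.1) fun z hz => ?_
    obtain ⟨hz1, hz2⟩ := hz
    obtain ⟨v, hv, hv'⟩ := Matrix.exists_mulVec_eq_zero_iff.2 hz2
    rw [← Dl_apply] at hv'
    have him : ∀ j, (f z j).im = p j z := by
      intro j
      have h1 := hp z j hz1
      simp only [f, Complex.add_im, Complex.neg_im, Complex.mul_im, Complex.ofReal_re, Complex.ofReal_im,
        Complex.I_re, Complex.I_im, mul_zero, mul_one, zero_mul, add_zero] at h1 ⊢
      linarith
    have h1 : ∀ j, Dl (cr y) z v j + (p j z : ℂ) * v l = 0 := by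
      intro j
      have h2 := congrFun hv' j
      rw [Dl_Lx hS, him] at h2
      exact h2
    have h2 : ∀ j, p' j z v = 0 := by
      intro j
      have h3 : HasFDerivAt (fun z => (Ph (cr y) z j + (p j z : ℂ) * z l).im) (Complex.imCLM.comp
          (((pl j).comp (Dl (cr y) z)).restrictScalars ℝ + ((p j z : ℂ) • (pl l).restrictScalars ℝ +
          z l • Complex.ofRealCLM.comp (p' j z)))) z := by
        have h4 : HasFDerivAt (fun z => (p j z : ℂ)) (Complex.ofRealCLM.comp (p' j z)) z :=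
          Complex.ofRealCLM.hasFDerivAt.comp z (hp' j z hz1)
        exact Complex.imCLM.hasFDerivAt.comp z ((hHd j z).add (h4.mul (hzd z)))
      have h5 : (fun z => (Ph (cr y) z j + (p j z : ℂ) * z l).im) =ᶠ[𝓝 z] fun _ => 0 := by
        have h6 : ∀ᶠ z' : Fin n → ℂ in 𝓝 z, (z' l).im ≠ 0 :=
          (Complex.continuous_im.comp (continuous_apply l)).continuousAt.eventually_ne hz1
        filter_upwards [h6] with z' hz' using hp z' j hz'
      have h6 := (h3.congr_of_eventuallyEq h5.symm).unique (hasFDerivAt_const (0 : ℝ) z)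
      have h7 := congrArg (fun L => L v) h6
      change (Dl (cr y) z v j + ((p j z : ℂ) * v l + z l * ((p' j z v : ℝ) : ℂ))).im = 0 at h7
      have h8 : Dl (cr y) z v j + ((p j z : ℂ) * v l + z l * ((p' j z v : ℝ) : ℂ)) = z l * ((p' j z v : ℝ) : ℂ) := by
        linear_combination h1 j
      rw [h8] at h7
      simp only [Complex.mul_im, Complex.ofReal_re, Complex.ofReal_im, mul_zero, zero_add] at h7
      exact (mul_eq_zero.1 h7).resolve_left hz1
    refine ⟨v, hv, ?_⟩
    funext j
    change - (Dl (cr y) z v j + ((p j z : ℂ) * v l + z l * ((p' j z v : ℝ) : ℂ))) + Complex.I * ((p' j z v : ℝ) : ℂ) = 0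
    rw [h2 j]
    push_cast
    linear_combination - h1 j

/-- **Real parameters.** -/
theorem bad_null_R (hS : Four S) (R : ℝ) : (volume : Measure (S → ℝ)) (cr ⁻¹' Bad S R) = 0 := by
  refine measure_mono_null (t := {u : S → ℝ | ∃ s : Fin n → ℝ, ‖s‖ ≤ R ∧ Dg (cr u) (ιR n s)} ∪
    ⋃ (l : Fin n) (m : ℕ), {u | ∃ z : Fin n → ℂ, ‖z‖ ≤ R ∧ (1 / ((m : ℝ) + 1) ≤ |(z l).im| ∧ Dg (cr u) z)}) ?_ ?_
  · rintro u ⟨z, hz, hz1, hz2⟩
    by_cases h : ∃ l, (z l).im ≠ 0
    · obtain ⟨l, hl⟩ := h
      obtain ⟨m, hm⟩ := exists_nat_one_div_lt (abs_pos.2 hl)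
      exact Or.inr (mem_iUnion₂.2 ⟨l, m, z, hz, hm.le, hz1, hz2⟩)
    · push Not at h
      have h1 : z = ιR n fun l => (z l).re := by
        funext l
        rw [ιR_apply]
        exact Complex.ext rfl (h l)
      refine Or.inl ⟨fun l => (z l).re, ?_, ?_, ?_⟩
      · refine (pi_norm_le_iff_of_nonneg ((norm_nonneg z).trans hz)).2 fun l => ?_
        exact (Complex.abs_re_le_norm (z l)).trans ((norm_le_pi_norm z l).trans hz)
      · rw [← h1]
        exact hz1
      · rw [← h1]
        exact hz2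
  · refine measure_union_null (null_real hS.h0 R) (measure_iUnion_null fun l => measure_iUnion_null fun m => ?_)
    exact null_nonreal hS R l (by positivity)

end Pool.Agent.V8H73.AN
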