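import Pool.Agent.V8H73.AN.AeC
import Pool.Agent.V8H73.AN.NullR

/-!
# The zeros and the coefficients of almost all real systems of exponential equations are algebraically independent
-/

set_option autoImplicit false
set_option linter.unusedSectionVars false

open Set Filter MeasureTheory
open scoped Topology

namespace Pool.Agent.V8H73.AN

theorem disc_R (g : ℝ → ℂ) (c : ℝ) (R : ℝ) (hg : AnalyticOnNhd ℝ g (Metric.ball c R)) (t0 : ℝ)
    (ht0 : t0 ∈ Metric.ball c R) (h : g t0 ≠ 0) : ∀ᵐ t : ℝ, t ∈ Metric.ball c R → g t ≠ 0 := by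
  have h1 := hg.eqOn_zero_or_eventually_ne_zero_of_preconnected (convex_ball c R).isPreconnected
  rcases h1 with h1 | h1
  · exact absurd (h1 ht0) h
  · have h2 := ae_restrict_le_codiscreteWithin (μ := (volume : Measure ℝ)) measurableSet_ball h1
    exact (ae_restrict_iff' measurableSet_ball).1 h2

theorem local_R {E : Type*} [NormedAddCommGroup E] [NormedSpace ℝ E] [FiniteDimensional ℝ E]
    [MeasurableSpace E] [BorelSpace E] (μ : Measure E) [μ.IsAddHaarMeasure] (U : Set E) (hU : IsOpen U)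
    (f : E → ℂ) (hf : AnalyticOnNhd ℝ f U)
    (h : ∀ O : Set E, IsOpen O → O ⊆ U → O.Nonempty → ∃ z ∈ O, f z ≠ 0) (z0 : E) (hz0 : z0 ∈ U) :
    ∃ u ∈ 𝓝 z0, μ {z | z ∈ u ∧ f z = 0} = 0 := by
  have : ProperSpace E := FiniteDimensional.proper ℝ E
  by_cases h0 : f z0 = 0
  swap
  · refine ⟨{z | f z ≠ 0}, (hf z0 hz0).continuousAt.eventually_ne h0, ?_⟩
    have : {z | z ∈ {z | f z ≠ 0} ∧ f z = 0} = ∅ := by
      ext z
      simp only [Set.mem_ofPred_eq, Set.mem_empty_iff_false, iff_false, not_and, imp_self]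
    rw [this, measure_empty]
  obtain ⟨r, hr, hball⟩ := Metric.isOpen_iff.1 hU z0 hz0
  obtain ⟨z1, hz1, hfz1⟩ := h (Metric.ball z0 (r / 2)) Metric.isOpen_ball
    ((Metric.ball_subset_ball (by linarith)).trans hball) ⟨z0, Metric.mem_ball_self (by linarith)⟩
  have hz1U : z1 ∈ U := hball (Metric.ball_subset_ball (by linarith) hz1)
  obtain ⟨δ0, hδ0, hδ⟩ := Metric.eventually_nhds_iff_ball.1
    ((hf z1 hz1U).continuousAt.eventually_ne hfz1)
  set v : E := z1 - z0 with hv
  have hvn : 0 < ‖v‖ := by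
    rw [norm_pos_iff, hv, sub_ne_zero]
    rintro rfl
    exact hfz1 h0
  have hvr : ‖v‖ < r / 2 := by
    rw [Metric.mem_ball, dist_eq_norm] at hz1
    exact hz1
  set δ : ℝ := min δ0 (min (r / 4) (3 / 4 * ‖v‖)) with hδd
  have hδp : 0 < δ := by
    rw [hδd]
    exact lt_min hδ0 (lt_min (by linarith) (by linarith))
  have hδ1 : δ ≤ δ0 := min_le_left _ _
  have hδ2 : δ ≤ r / 4 := (min_le_right _ _).trans (min_le_left _ _)
  have hδ3 : δ ≤ 3 / 4 * ‖v‖ := (min_le_right _ _).trans (min_le_right _ _)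
  have hBU : Metric.ball z0 δ ⊆ U := (Metric.ball_subset_ball (by linarith)).trans hball
  let s : Set E := {z | z ∈ Metric.ball z0 δ → f z ≠ 0}
  have hsm : MeasurableSet s := by
    have h1 : sᶜ = Metric.ball z0 δ \ (Metric.ball z0 δ ∩ f ⁻¹' {0}ᶜ) := by
      ext z
      simp only [s, Set.mem_compl_iff, Set.mem_ofPred_eq, Classical.not_imp, not_not, Set.mem_sdiff,
        Set.mem_inter_iff, Set.mem_preimage, Set.mem_singleton_iff, not_and]
      tauto
    have h2 : IsOpen (Metric.ball z0 δ ∩ f ⁻¹' {0}ᶜ) :=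
      (hf.mono hBU).continuousOn.isOpen_inter_preimage Metric.isOpen_ball isOpen_compl_singleton
    have h3 : MeasurableSet sᶜ := by
      rw [h1]
      exact measurableSet_ball.diff h2.measurableSet
    exact MeasurableSet.of_compl h3
  have key : ∀ y : E, ∀ᵐ t : ℝ, y + LinearMap.toSpanSingleton ℝ E v t ∈ s := by
    intro y
    by_cases hy : ∃ t1 : ℝ, y + t1 • v ∈ Metric.ball z0 δ
    · obtain ⟨t1, ht1⟩ := hy
      have hg : AnalyticOnNhd ℝ (fun t : ℝ => f (y + t • v)) (Metric.ball t1 (3 / 2)) := by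
        intro t ht
        refine AnalyticAt.fun_comp (g := f) (f := fun t : ℝ => y + t • v) (hf _ (hball ?_)) ?_
        · rw [Metric.mem_ball, dist_eq_norm] at ht ht1 ⊢
          have h4 : y + t • v - z0 = (y + t1 • v - z0) + (t - t1) • v := by
            rw [sub_smul]; abel
          rw [h4]
          refine (norm_add_le _ _).trans_lt ?_
          rw [norm_smul]
          nlinarith [norm_nonneg (t - t1)]
        · fun_prop
      have hg1 : (fun t : ℝ => f (y + t • v)) (t1 + 1) ≠ 0 := by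
        apply hδ
        rw [Metric.mem_ball, dist_eq_norm] at ht1 ⊢
        have h4 : y + (t1 + 1) • v - z1 = y + t1 • v - z0 := by
          rw [add_smul, one_smul, hv]; abel
        rw [h4]
        exact ht1.trans_le hδ1
      filter_upwards [disc_R _ t1 (3 / 2) hg (t1 + 1) (by simp [Metric.mem_ball, dist_eq_norm]; norm_num) hg1]
        with t ht
      intro htb
      rw [LinearMap.toSpanSingleton_apply] at htb ⊢
      apply ht
      rw [Metric.mem_ball, dist_eq_norm] at htb ht1 ⊢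
      have h4 : (t - t1) • v = (y + t • v - z0) - (y + t1 • v - z0) := by
        rw [sub_smul]; abel
      have h5 : ‖(t - t1) • v‖ < 2 * δ := by
        rw [h4]
        refine (norm_sub_le _ _).trans_lt ?_
        linarith
      rw [norm_smul] at h5
      have h6 : ‖t - t1‖ * ‖v‖ < 3 / 2 * ‖v‖ := by linarith
      exact lt_of_mul_lt_mul_right h6 hvn.le
    · push Not at hy
      exact Filter.Eventually.of_forall fun t ht => absurd ht (hy t)
  refine ⟨Metric.ball z0 δ, Metric.ball_mem_nhds z0 hδp, ?_⟩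
  have h7 := ae_mem_of_ae_add_linearMap_mem (LinearMap.toSpanSingleton ℝ E v) (volume : Measure ℝ) μ
    hsm key
  have h8 : {z | z ∈ Metric.ball z0 δ ∧ f z = 0} = sᶜ := by
    ext z
    simp only [s, Set.mem_compl_iff, Set.mem_ofPred_eq, Classical.not_imp, not_not]
  rw [h8]
  exact h7

/-- zero sets of real analytic functions -/
theorem analytic_null_R {E : Type*} [NormedAddCommGroup E] [NormedSpace ℝ E] [FiniteDimensional ℝ E]
    [MeasurableSpace E] [BorelSpace E] (μ : Measure E) [μ.IsAddHaarMeasure] (U : Set E) (hU : IsOpen U)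
    (f : E → ℂ) (hf : AnalyticOnNhd ℝ f U)
    (h : ∀ O : Set E, IsOpen O → O ⊆ U → O.Nonempty → ∃ z ∈ O, f z ≠ 0) :
    μ {z | z ∈ U ∧ f z = 0} = 0 := by
  have : ProperSpace E := FiniteDimensional.proper ℝ E
  refine measure_null_of_locally_null _ fun x hx => ?_
  obtain ⟨u, hu, hμ⟩ := local_R μ U hU f hf h x hx.1
  refine ⟨{z | z ∈ U ∧ f z = 0} ∩ u, inter_mem_nhdsWithin _ hu, measure_mono_null ?_ hμ⟩
  exact fun z hz => ⟨hz.2, hz.1.2⟩

variable {X : Type} [Fintype X]

/-- real points -/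
noncomputable def ιX (X : Type) [Fintype X] : (X → ℝ) →L[ℝ] (X → ℂ) :=
  ContinuousLinearMap.pi fun l => Complex.ofRealCLM.comp (ContinuousLinearMap.proj l)

theorem ιX_apply (s : X → ℝ) (l : X) : ιX X s l = (s l : ℂ) := rfl

theorem ιX_norm (s : X → ℝ) : ‖ιX X s‖ = ‖s‖ := by
  refine le_antisymm ?_ ?_
  · refine (pi_norm_le_iff_of_nonneg (norm_nonneg _)).2 fun l => ?_
    rw [ιX_apply, Complex.norm_real]
    exact norm_le_pi_norm s l
  · refine (pi_norm_le_iff_of_nonneg (norm_nonneg _)).2 fun l => ?_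
    rw [← Complex.norm_real, ← ιX_apply]
    exact norm_le_pi_norm (ιX X s) l

/-- a function which vanishes at the real points near a real point vanishes near it -/
theorem tot_real {F : (X → ℂ) → ℂ} {u0 : X → ℝ} {δ : ℝ} (hδ : 0 < δ)
    (hF : AnalyticOnNhd ℂ F (Metric.ball (ιX X u0) δ))
    (h : ∀ u : X → ℝ, u ∈ Metric.ball u0 δ → F (ιX X u) = 0) : ∀ᶠ x in 𝓝 (ιX X u0), F x = 0 := by
  filter_upwards [Metric.ball_mem_nhds (ιX X u0) (show 0 < δ / 4 by positivity)] with x hx
  let a : X → ℝ := fun l => (x l).re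
  let b : X → ℝ := fun l => (x l).im
  have hxab : x = ιX X a + Complex.I • ιX X b := by
    funext l
    rw [Pi.add_apply, Pi.smul_apply, ιX_apply, ιX_apply, smul_eq_mul, mul_comm]
    exact (Complex.re_add_im (x l)).symm
  rw [Metric.mem_ball, dist_eq_norm] at hx
  have ha : ‖a - u0‖ < δ / 4 := by
    refine lt_of_le_of_lt ?_ hx
    refine (pi_norm_le_iff_of_nonneg (norm_nonneg _)).2 fun l => ?_
    refine le_trans ?_ (norm_le_pi_norm (x - ιX X u0) l)
    have h1 : (a - u0) l = ((x - ιX X u0) l).re := by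
      simp [a, ιX_apply]
    rw [h1]
    exact Complex.abs_re_le_norm _
  have hb : ‖b‖ < δ / 4 := by
    refine lt_of_le_of_lt ?_ hx
    refine (pi_norm_le_iff_of_nonneg (norm_nonneg _)).2 fun l => ?_
    refine le_trans ?_ (norm_le_pi_norm (x - ιX X u0) l)
    have h1 : b l = ((x - ιX X u0) l).im := by
      simp [b, ιX_apply]
    rw [h1]
    exact Complex.abs_im_le_norm _
  let G : ℂ → ℂ := fun t => F (ιX X a + t • ιX X b)
  have hmem : ∀ t ∈ Metric.ball (0 : ℂ) 2, ιX X a + t • ιX X b ∈ Metric.ball (ιX X u0) δ := by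
    intro t ht
    rw [Metric.mem_ball, dist_zero_right] at ht
    rw [Metric.mem_ball, dist_eq_norm]
    have h1 : ιX X a + t • ιX X b - ιX X u0 = ιX X (a - u0) + t • ιX X b := by
      rw [map_sub]
      abel
    rw [h1]
    refine (norm_add_le _ _).trans_lt ?_
    rw [norm_smul, ιX_norm, ιX_norm]
    have h2 : ‖t‖ * ‖b‖ ≤ 2 * (δ / 4) := mul_le_mul ht.le hb.le (norm_nonneg _) (by norm_num)
    linarith
  have hG : AnalyticOnNhd ℂ G (Metric.ball 0 2) := by
    intro t ht
    refine AnalyticAt.fun_comp (g := F) (f := fun t : ℂ => ιX X a + t • ιX X b) (hF _ (hmem t ht)) ?_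
    fun_prop
  have hG0 : ∀ t : ℝ, (t : ℂ) ∈ Metric.ball (0 : ℂ) 2 → G t = 0 := by
    intro t ht
    have h1 : ιX X a + (t : ℂ) • ιX X b = ιX X (a + t • b) := by
      funext l
      simp [ιX_apply]
    have h2 := hmem t ht
    rw [h1] at h2
    change F (ιX X a + (t : ℂ) • ιX X b) = 0
    rw [h1]
    refine h _ ?_
    rw [Metric.mem_ball, dist_eq_norm, ← ιX_norm, map_sub, ← dist_eq_norm]
    exact h2
  have hfreq : ∃ᶠ t in 𝓝[≠] (0 : ℂ), G t = (fun _ : ℂ => (0 : ℂ)) t := by
    have h1 : Tendsto (fun m : ℕ => (((1 / ((m : ℝ) + 1) : ℝ)) : ℂ)) atTop (𝓝[≠] (0 : ℂ)) := by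
      refine tendsto_nhdsWithin_iff.2 ⟨?_, Eventually.of_forall fun m => ?_⟩
      · have h2 := (Complex.continuous_ofReal.tendsto 0).comp (tendsto_one_div_add_atTop_nhds_zero_nat (𝕜 := ℝ))
        rw [Complex.ofReal_zero] at h2
        exact h2
      · rw [Set.mem_compl_iff, Set.mem_singleton_iff, Complex.ofReal_eq_zero]
        positivity
    refine h1.frequently (Eventually.frequently (Eventually.of_forall fun m => ?_))
    refine hG0 _ ?_
    rw [Metric.mem_ball, dist_zero_right, Complex.norm_real, Real.norm_eq_abs, abs_of_pos (by positivity)]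
    have h2 : 1 / ((m : ℝ) + 1) ≤ 1 := by
      rw [div_le_one (by positivity)]
      linarith [(Nat.cast_nonneg m : (0 : ℝ) ≤ m)]
    linarith
  have h3 := hG.eqOn_of_preconnected_of_frequently_eq analyticOnNhd_const (convex_ball (0 : ℂ) 2).isPreconnected
    (Metric.mem_ball_self (by norm_num)) hfreq
  have h4 := h3 (show Complex.I ∈ Metric.ball (0 : ℂ) 2 by
    rw [Metric.mem_ball, dist_zero_right, Complex.norm_I]
    norm_num)
  rw [hxab]
  exact h4

/-- the functions are not zero at almost all real points -/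
theorem null_rel_R {σ : Type} [Fintype σ] {U : Set (X → ℂ)} (hU : IsOpen U)
    (hc : IsPreconnected U) {f : σ → (X → ℂ) → ℂ} (hf : ∀ i, AnalyticOnNhd ℂ (f i) U)
    (hI : Pool.Agent.N207.AX.Ind U f) {P : MvPolynomial (X ⊕ σ) ℂ} (hP : P ≠ 0) :
    (volume : Measure (X → ℝ)) {u | ιX X u ∈ U ∧ MvPolynomial.eval (Sum.elim (ιX X u) fun i => f i (ιX X u)) P = 0} =
      0 := by
  have han : AnalyticOnNhd ℂ (fun x : X → ℂ => MvPolynomial.eval (Sum.elim x fun i => f i x) P) U := by
    have h1 : ∀ o : X ⊕ σ, AnalyticOnNhd ℂ (fun x : X → ℂ => (Sum.elim x fun i => f i x : _ → ℂ) o) U := by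
      rintro (q | i)
      · exact (ContinuousLinearMap.proj (R := ℂ) (φ := fun _ : X => ℂ) q).analyticOnNhd U
      · exact hf i
    clear hP
    intro x hx
    induction P using MvPolynomial.induction_on with
    | C a =>
      simp only [MvPolynomial.eval_C]
      exact analyticAt_const
    | add p q hp hq =>
      simp only [map_add]
      exact hp.add hq
    | mul_X p o hp =>
      simp only [map_mul, MvPolynomial.eval_X]
      exact hp.mul (h1 o x hx)
  have hUr : IsOpen ((ιX X) ⁻¹' U) := hU.preimage (ιX X).continuous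
  refine analytic_null_R volume ((ιX X) ⁻¹' U) hUr
    (fun u => MvPolynomial.eval (Sum.elim (ιX X u) fun i => f i (ιX X u)) P) (fun u hu => ?_) fun O hO hOU hOne => ?_
  · have h1 : AnalyticAt ℝ (fun x : X → ℂ => MvPolynomial.eval (Sum.elim x fun i => f i x) P) (ιX X u) :=
      (han (ιX X u) hu).restrictScalars
    exact h1.comp_of_eq ((ιX X).analyticAt u) rfl
  by_contra hcon
  push Not at hcon
  obtain ⟨u1, hu1⟩ := hOne
  obtain ⟨r1, hr1, hb1⟩ := Metric.isOpen_iff.1 hO u1 hu1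
  obtain ⟨r2, hr2, hb2⟩ := Metric.isOpen_iff.1 hU (ιX X u1) (hOU hu1)
  have h2 := tot_real (F := fun x : X → ℂ => MvPolynomial.eval (Sum.elim x fun i => f i x) P) (u0 := u1)
    (δ := min r1 r2) (lt_min hr1 hr2) (han.mono ((Metric.ball_subset_ball (min_le_right _ _)).trans hb2))
    fun u hu => hcon u (hb1 (Metric.ball_subset_ball (min_le_left _ _) hu))
  exact hP (Pool.Agent.N207.NR.locInd hc hf hI (hOU hu1) P h2)

variable {n : ℕ} {S : Finset (Fin n × Ex n)}

/-- one ball -/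
theorem aeR_R (hS : Four S) (K : Subfield ℂ) [Countable K] (R : ℝ) : ∀ᵐ u : S → ℝ, cr u ∉ Bad S R ∧
    ∀ s : Finset (Fin n → ℂ), (∀ z ∈ s, ‖z‖ ≤ R ∧ Ph (cr u) z = 0) →
      AlgebraicIndependent K (Sum.elim (cr u) (fun q : s × Fin n => (q.1 : Fin n → ℂ) q.2) : S ⊕ (s × Fin n) → ℂ) := by
  have h1 : ∀ᵐ u : S → ℝ, cr u ∉ Bad S R := by
    rw [ae_iff]
    simp only [not_not]
    exact bad_null_R hS R
  have h2 : (volume : Measure (S → ℝ)) {u | cr u ∉ Bad S R ∧ ¬ ∀ s : Finset (Fin n → ℂ),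
      (∀ z ∈ s, ‖z‖ ≤ R ∧ Ph (cr u) z = 0) →
      AlgebraicIndependent K
        (Sum.elim (cr u) (fun q : s × Fin n => (q.1 : Fin n → ℂ) q.2) : S ⊕ (s × Fin n) → ℂ)} = 0 := by
    refine measure_null_of_locally_null _ fun u0 hu0 => ?_
    obtain ⟨δ, N, ζ, hδ, hB, hI, hcov⟩ := patch_S hS hu0.1
    have hcount := Pool.Agent.Y563.SE.countable_mvPolynomial (S ⊕ (Fin N × Fin n)) K
    refine ⟨⋃ p : {p : MvPolynomial (S ⊕ (Fin N × Fin n)) K // p ≠ 0}, {u : S → ℝ | ιX S u ∈ Metric.ball (cr u0) δ ∧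
      MvPolynomial.eval (Sum.elim (ιX S u) fun q => ζ q.1 (ιX S u) q.2) (MvPolynomial.map (algebraMap K ℂ) p.1) = 0},
      ?_, ?_⟩
    · rw [mem_nhdsWithin]
      refine ⟨cr ⁻¹' Metric.ball (cr u0) δ, Metric.isOpen_ball.preimage cr_cont, Metric.mem_ball_self hδ, ?_⟩
      rintro u ⟨hxb, -, hx⟩
      push Not at hx
      obtain ⟨s, hs, hni⟩ := hx
      have hex : ∀ z : s, ∃ i, ζ i (cr u) = z := fun z => by
        obtain ⟨i, hi, -⟩ := hcov (cr u) hxb z.1 (hs z.1 z.2).1 (hs z.1 z.2).2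
        exact ⟨i, hi⟩
      choose e he using hex
      have hinj : Function.Injective e := fun z z' h => Subtype.ext (by rw [← he z, ← he z', h])
      have hni' : ¬ AlgebraicIndependent K
          (Sum.elim (cr u) (fun q => ζ q.1 (cr u) q.2) : S ⊕ (Fin N × Fin n) → ℂ) := by
        intro h
        apply hni
        have h3 := h.comp (Sum.map id (Prod.map e id))
          (Function.injective_id.sumMap (hinj.prodMap Function.injective_id))
        have h4 : (Sum.elim (cr u) (fun q => ζ q.1 (cr u) q.2) : S ⊕ (Fin N × Fin n) → ℂ) ∘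
            Sum.map id (Prod.map e id) = Sum.elim (cr u) (fun q : s × Fin n => (q.1 : Fin n → ℂ) q.2) := by
          funext o
          rcases o with q | q
          · rfl
          · exact congrFun (he q.1) q.2
        rwa [h4] at h3
      rw [algebraicIndependent_iff] at hni'
      push Not at hni'
      obtain ⟨p, hp1, hp2⟩ := hni'
      refine Set.mem_iUnion.2 ⟨⟨p, hp2⟩, hxb, ?_⟩
      rw [MvPolynomial.eval_map]
      exact hp1
    · refine measure_iUnion_null fun p => ?_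
      refine null_rel_R Metric.isOpen_ball (convex_ball (cr u0) δ).isPreconnected
        (f := fun (q : Fin N × Fin n) x => ζ q.1 x q.2) (fun q => (hB.b q.1).z q.2) hI fun h => p.2 ?_
      exact MvPolynomial.map_injective _ (algebraMap K ℂ).injective (by rw [h, map_zero])
  have h3 : ∀ᵐ u : S → ℝ, ¬ (cr u ∉ Bad S R ∧ ¬ ∀ s : Finset (Fin n → ℂ),
      (∀ z ∈ s, ‖z‖ ≤ R ∧ Ph (cr u) z = 0) →
      AlgebraicIndependent K
        (Sum.elim (cr u) (fun q : s × Fin n => (q.1 : Fin n → ℂ) q.2) : S ⊕ (s × Fin n) → ℂ)) := by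
    rw [ae_iff]
    simp only [not_not]
    exact h2
  filter_upwards [h1, h3] with x hx1 hx3
  refine ⟨hx1, ?_⟩
  by_contra hcon
  exact hx3 ⟨hx1, hcon⟩

/-- from balls to all zeros -/
theorem all_of_R (K : Subfield ℂ) {x : S → ℂ} (hx : ∀ R : ℕ, x ∉ Bad S R ∧
    ∀ s : Finset (Fin n → ℂ), (∀ z ∈ s, ‖z‖ ≤ R ∧ Ph x z = 0) →
      AlgebraicIndependent K (Sum.elim x (fun q : s × Fin n => (q.1 : Fin n → ℂ) q.2) : S ⊕ (s × Fin n) → ℂ)) :
    (∀ z, Ph x z = 0 → (JJ x z (ez z)).det ≠ 0) ∧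
    AlgebraicIndependent K (Sum.elim x fun q : {z : Fin n → ℂ // Ph x z = 0} × Fin n => (q.1 : Fin n → ℂ) q.2) := by
  classical
  constructor
  · intro z hz hd
    exact (hx ⌈‖z‖⌉₊).1 ⟨z, Nat.le_ceil _, hz, hd⟩
  · refine algebraicIndependent_of_finite_type fun t ht => ?_
    let s : Finset (Fin n → ℂ) := ht.toFinset.biUnion fun o => o.elim (fun _ => ∅) fun q => {(q.1 : Fin n → ℂ)}
    have hs : ∀ q : {z : Fin n → ℂ // Ph x z = 0} × Fin n, Sum.inr q ∈ t → (q.1 : Fin n → ℂ) ∈ s := by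
      intro q hq
      refine Finset.mem_biUnion.2 ⟨Sum.inr q, ht.mem_toFinset.2 hq, ?_⟩
      exact Finset.mem_singleton_self _
    have hs2 : ∀ z ∈ s, ‖z‖ ≤ ((s.sup fun z => ⌈‖z‖⌉₊ : ℕ) : ℝ) ∧ Ph x z = 0 := by
      intro z hz
      constructor
      · refine (Nat.le_ceil _).trans ?_
        exact_mod_cast Finset.le_sup (f := fun z : Fin n → ℂ => ⌈‖z‖⌉₊) hz
      · obtain ⟨o, -, ho⟩ := Finset.mem_biUnion.1 hz
        rcases o with o | q
        · simp at ho
        · rw [Sum.elim_inr, Finset.mem_singleton] at ho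
          rw [ho]
          exact q.1.2
    have h2 := (hx (s.sup fun z => ⌈‖z‖⌉₊)).2 s hs2
    let g : t → S ⊕ (s × Fin n) := fun i => match i with
      | ⟨Sum.inl q, _⟩ => Sum.inl q
      | ⟨Sum.inr q, h⟩ => Sum.inr (⟨q.1.1, hs q h⟩, q.2)
    have hg : Function.Injective g := by
      rintro ⟨a | a, ha⟩ ⟨b | b, hb⟩ h
      · simpa [g] using h
      · simp [g] at h
      · simp [g] at h
      · simp only [g, Sum.inr.injEq, Prod.mk.injEq, Subtype.mk.injEq] at h
        have h3 : a = b := Prod.ext (Subtype.ext h.1) h.2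
        subst h3
        rfl
    have h3 := h2.comp g hg
    have h4 : ((Sum.elim x (fun q : s × Fin n => (q.1 : Fin n → ℂ) q.2) : S ⊕ (s × Fin n) → ℂ) ∘ g) = fun i : t =>
        (Sum.elim x (fun q : {z : Fin n → ℂ // Ph x z = 0} × Fin n => (q.1 : Fin n → ℂ) q.2) : _ → ℂ) i := by
      funext i
      rcases i with ⟨a | a, ha⟩
      · rfl
      · rfl
    rwa [h4] at h3

/-- **Almost all real systems.** -/
theorem ae_all_R (hS : Four S) (K : Subfield ℂ) [Countable K] : ∀ᵐ u : S → ℝ,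
    (∀ z, Ph (cr u) z = 0 → (JJ (cr u) z (ez z)).det ≠ 0) ∧
    AlgebraicIndependent K
      (Sum.elim (cr u) fun q : {z : Fin n → ℂ // Ph (cr u) z = 0} × Fin n => (q.1 : Fin n → ℂ) q.2) := by
  have h1 := ae_all_iff.2 fun R : ℕ => aeR_R hS K (R : ℝ)
  filter_upwards [h1] with u hu
  exact all_of_R K hu

end Pool.Agent.V8H73.AN
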