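import Pool.Agent.V8H73.AN.Eqs

/-!
# Linear relations between points of varieties: the blocks
-/

set_option autoImplicit false
set_option linter.unusedSectionVars false

open MvPolynomial

namespace Pool.Agent.V8H73.AN

variable {n : ℕ}

/-- the monomials `1, x_l, y_l, x_l y_l` in all equations -/
structure Four (S : Finset (Fin n × Ex n)) : Prop where
  h0 : ∀ j, (j, 0) ∈ S
  hx : ∀ j l, (j, Finsupp.single (Sum.inl l) 1) ∈ S
  hy : ∀ j l, (j, Finsupp.single (Sum.inr l) 1) ∈ S
  hxy : ∀ j l, (j, Finsupp.single (Sum.inl l) 1 + Finsupp.single (Sum.inr l) 1) ∈ S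

variable {k F : Type*} [Field k] [Field F] [Algebra k F] {S : Finset (Fin n × Ex n)} {c : S → k}

/-- the killed elements -/
def kil (k F : Type*) [Field k] [Field F] [Algebra k F] : Subring F where
  carrier := {u | ∀ δ : Derivation k F F, δ u = 0}
  zero_mem' := fun δ => map_zero δ
  one_mem' := fun δ => Derivation.map_one_eq_zero δ
  add_mem' := fun {a b} ha hb δ => by rw [map_add, ha δ, hb δ, add_zero]
  mul_mem' := fun {a b} ha hb δ => by rw [Derivation.leibniz, ha δ, hb δ, smul_zero, smul_zero, add_zero]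
  neg_mem' := fun {a} ha δ => by rw [map_neg, ha δ, neg_zero]

/-- a polynomial relation with killed coefficients, restricted to zero -/
theorem zero_at {z' y' : Fin n → F} [CharZero F] {D : Fin n → Derivation k F F}
    (hD : ∀ b l, D b (z' l) = if l = b then 1 else 0) (hy' : ∀ l (δ : Derivation k F F), δ (y' l) = 0)
    (P : MvPolynomial (Fin n ⊕ Fin n) k) (h : eval (Sum.elim z' y') (map (algebraMap k F) P) = 0) :
    eval (Sum.elim 0 y') (map (algebraMap k F) P) = 0 := by
  let i1 : k →+* kil k F := (algebraMap k F).codRestrict (kil k F) fun a δ => Derivation.map_algebraMap δ a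
  let yk : Fin n → kil k F := fun l => ⟨y' l, hy' l⟩
  let θ : MvPolynomial (Fin n ⊕ Fin n) k →+* MvPolynomial (Fin n) (kil k F) :=
    eval₂Hom (C.comp i1) (Sum.elim X fun l => C (yk l))
  have hθ : ∀ (t : Fin n → F) (Q : MvPolynomial (Fin n ⊕ Fin n) k),
      eval t (map (kil k F).subtype (θ Q)) = eval (Sum.elim t y') (map (algebraMap k F) Q) := by
    intro t Q
    have h1 : ((eval t).comp (map (kil k F).subtype)).comp θ =
        (eval (Sum.elim t y')).comp (map (algebraMap k F)) := by
      refine MvPolynomial.ringHom_ext (fun a => ?_) fun o => ?_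
      · simp only [RingHom.comp_apply, θ, eval₂Hom_C, map_C, eval_C]
        rfl
      · rcases o with l | l
        · simp only [RingHom.comp_apply, θ, eval₂Hom_X', Sum.elim_inl, map_X, eval_X]
        · simp only [RingHom.comp_apply, θ, eval₂Hom_X', Sum.elim_inr, map_X, eval_X, map_C, eval_C]
          rfl
    exact RingHom.congr_fun h1 Q
  have h2 : map (kil k F).subtype (θ P) = 0 := by
    refine mv_zero hD _ _ le_rfl (fun b m => ?_) ?_
    · rw [coeff_map]
      exact (coeff m (θ P)).2 (D b)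
    · rw [hθ]
      exact h
  rw [← hθ, h2, map_zero]

theorem weight_rel {z y : Fin n → F} {m : Fin n → k} {dz : Fin n → S → F} {q : S}
    (hd : ∀ j, ∑ l, JJ (cF F c) z y j l * dz l q = - if j = q.1.1 then mo q.1.2 z y else 0) {w : Fin n → F}
    (hw : Matrix.vecMul w (JJ (cF F c) z y) = fun l => algebraMap k F (m l)) :
    ∑ l, algebraMap k F (m l) * dz l q = - (w q.1.1 * mo q.1.2 z y) := by
  have h1 : ∀ l, algebraMap k F (m l) = ∑ j, w j * JJ (cF F c) z y j l := fun l => (congrFun hw l).symm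
  simp only [h1, Finset.sum_mul]
  rw [Finset.sum_comm]
  have h2 : ∀ j, ∑ l, w j * JJ (cF F c) z y j l * dz l q = w j * (- if j = q.1.1 then mo q.1.2 z y else 0) := by
    intro j
    rw [← hd j, Finset.mul_sum]
    exact Finset.sum_congr rfl fun l _ => by ring
  simp only [h2, mul_neg, mul_ite, mul_zero, Finset.sum_neg_distrib, Finset.sum_ite_eq', Finset.mem_univ, if_true]

theorem exists_w {z y : Fin n → F} (hJ : (JJ (cF F c) z y).det ≠ 0) (m : Fin n → k) :
    ∃ w : Fin n → F, Matrix.vecMul w (JJ (cF F c) z y) = fun l => algebraMap k F (m l) := by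
  refine ⟨Matrix.vecMul (fun l => algebraMap k F (m l)) (JJ (cF F c) z y)⁻¹, ?_⟩
  rw [Matrix.vecMul_vecMul, Matrix.nonsing_inv_mul _ (isUnit_iff_ne_zero.2 hJ), Matrix.vecMul_one]

theorem w_ne {z y : Fin n → F} {m : Fin n → k} (hm : m ≠ 0) {w : Fin n → F}
    (hw : Matrix.vecMul w (JJ (cF F c) z y) = fun l => algebraMap k F (m l)) : ∃ j, w j ≠ 0 := by
  by_contra hcon
  push Not at hcon
  apply hm
  funext l
  have h1 := congrFun hw l
  have h2 : w = 0 := funext hcon
  rw [h2, Matrix.zero_vecMul] at h1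
  exact (algebraMap k F).injective (by rw [Pi.zero_apply, map_zero]; exact h1.symm)

/-- one block -/
structure Blk (c : S → k) (z y : Fin n → F) (dz : Fin n → S → F) : Prop where
  P : ∀ j, eval (Sum.elim z y) (Pj (cF F c) j) = 0
  B : (BB (cF F c) z y).det ≠ 0
  J : (JJ (cF F c) z y).det ≠ 0
  d : ∀ q j, ∑ l, JJ (cF F c) z y j l * dz l q = - if j = q.1.1 then mo q.1.2 z y else 0

variable {ι : Type*} [Fintype ι] [DecidableEq ι] {z y : ι → Fin n → F} {z' y' : Fin n → F}
  {A : ι → Matrix (Fin n) (Fin n) k} {C : Fin n → k} {a b : ι}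
  {m : ι → Fin n → k} {m' : Fin n → k} {dz : ι → Fin n → S → F} {dz' : Fin n → S → F}

theorem rels (hb : ∀ i, Blk c (z i) (y i) (dz i)) (hb' : Blk c z' y' dz')
    (hrel : ∀ q, ∑ i, ∑ l, algebraMap k F (m i l) * dz i l q + ∑ l, algebraMap k F (m' l) * dz' l q = 0)
    {w : ι → Fin n → F} {w' : Fin n → F}
    (hw : ∀ i, Matrix.vecMul (w i) (JJ (cF F c) (z i) (y i)) = fun l => algebraMap k F (m i l))
    (hw' : Matrix.vecMul w' (JJ (cF F c) z' y') = fun l => algebraMap k F (m' l)) {j0 : Fin n} {p : Ex n}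
    (hp : (j0, p) ∈ S) : ∑ i, w i j0 * mo p (z i) (y i) + w' j0 * mo p z' y' = 0 := by
  have h1 := hrel ⟨(j0, p), hp⟩
  rw [weight_rel (hb'.d _) hw', Finset.sum_congr rfl fun i _ => weight_rel ((hb i).d _) (hw i),
    Finset.sum_neg_distrib] at h1
  linear_combination -h1

/-- the last block is algebraic over the other ones -/
theorem last_killed (hS : Four S) (hb : ∀ i, Blk c (z i) (y i) (dz i)) (hb' : Blk c z' y' dz') (hm' : m' ≠ 0)
    (hrel : ∀ q, ∑ i, ∑ l, algebraMap k F (m i l) * dz i l q + ∑ l, algebraMap k F (m' l) * dz' l q = 0)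
    (δ : Derivation k F F) (hδ : ∀ i l, δ (z i l) = 0) (l : Fin n) : δ (z' l) = 0 := by
  choose w hw using fun i => exists_w (hb i).J (m i)
  obtain ⟨w', hw'⟩ := exists_w hb'.J m'
  obtain ⟨j0, hj0⟩ := w_ne hm' hw'
  have hy := fun i => over_y (hb i).P (hb i).B
  have hk : ∀ p, (j0, p) ∈ S → δ (w' j0 * mo p z' y') = 0 := by
    intro p hp
    have h1 := congrArg δ (rels hb hb' hrel hw hw' hp)
    rw [map_add, map_sum, map_zero] at h1
    rw [Finset.sum_eq_zero (fun i _ => ?_), zero_add] at h1
    · exact h1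
    rw [Derivation.leibniz, over_w (hy i) (hb i).J (hw i) j0 δ (hδ i), smul_zero, add_zero]
    have h2 : δ (mo p (z i) (y i)) = 0 := by
      have h3 : mo p (z i) (y i) = eval (Sum.elim (z i) (y i)) (map (algebraMap k F) (monomial p 1)) := by
        unfold mo
        rw [map_monomial, map_one (algebraMap k F)]
      rw [h3]
      refine der_ev_zero δ ?_ _
      rintro (o | o)
      · exact hδ i o
      · exact hy i o δ (hδ i)
    rw [h2, smul_zero]
  have h1 := hk 0 (hS.h0 j0)
  rw [mo_zero, mul_one] at h1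
  have h2 := hk _ (hS.hx j0 l)
  rw [mo_x, Derivation.leibniz, h1, smul_zero, add_zero, smul_eq_mul] at h2
  exact (mul_eq_zero.1 h2).resolve_left hj0

/-- **The blocks.** -/
theorem blocks [CharZero k] [CharZero F] (h : Lin k z z' A C a b) (hS : Four S)
    (hb : ∀ i, Blk c (z i) (y i) (dz i)) (hb' : Blk c z' y' dz') (hm' : m' ≠ 0)
    (hrel : ∀ q, ∑ i, ∑ l, algebraMap k F (m i l) * dz i l q + ∑ l, algebraMap k F (m' l) * dz' l q = 0) (j : Fin n) :
    eval (Sum.elim 0 y') (Pj (cF F c) j) = 0 := by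
  choose w hw using fun i => exists_w (hb i).J (m i)
  obtain ⟨w', hw'⟩ := exists_w hb'.J m'
  obtain ⟨j0, hj0⟩ := w_ne hm' hw'
  have hy := fun i => over_y (hb i).P (hb i).B
  have hy' := over_y hb'.P hb'.B
  obtain ⟨D, hD, hk⟩ := h.core (y := y) (w := fun i => w i j0) (y' := y') (w' := w' j0) hy
    (fun i => over_w (hy i) (hb i).J (hw i) j0) hy' (over_w hy' hb'.J hw' j0) hj0
    (by
      have := rels hb hb' hrel hw hw' (hS.h0 j0)
      simpa only [mo_zero, mul_one] using this)
    (fun l => by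
      have := rels hb hb' hrel hw hw' (hS.hx j0 l)
      simpa only [mo_x] using this)
    (fun l => by
      have := rels hb hb' hrel hw hw' (hS.hy j0 l)
      simpa only [mo_y] using this)
    (fun l => by
      have := rels hb hb' hrel hw hw' (hS.hxy j0 l)
      simpa only [mo_xy] using this)
  have h1 : Pj (cF F c) j = map (algebraMap k F) (Pj c j) := (Pj_map (algebraMap k F) c j).symm
  have h2 := hb'.P j
  rw [h1] at h2 ⊢
  exact zero_at hD hk _ h2

/-- **Counting with derivations.** -/
theorem count [CharZero k] {τ σ : Type*} [Fintype τ] [Fintype σ] {W : τ → F} (hW : AlgebraicIndependent k W) {Z : σ → F}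
    (h : ∀ δ : Derivation k F F, (∀ s, δ (Z s) = 0) → ∀ t, δ (W t) = 0) :
    Fintype.card τ ≤ Fintype.card σ ∧ (Fintype.card τ = Fintype.card σ → AlgebraicIndependent k Z) := by
  classical
  let LW : Derivation k F F →ₗ[F] (τ → F) :=
    { toFun := fun δ t => δ (W t), map_add' := fun _ _ => rfl, map_smul' := fun _ _ => rfl }
  let LZ : Derivation k F F →ₗ[F] (σ → F) :=
    { toFun := fun δ t => δ (Z t), map_add' := fun _ _ => rfl, map_smul' := fun _ _ => rfl }
  have hsur : Function.Surjective LW := fun v => by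
    obtain ⟨D, hD⟩ := Pool.Agent.H135R2.VS.exists_der hW v
    exact ⟨D, funext hD⟩
  have hker : LinearMap.ker LZ ≤ LinearMap.ker LW := by
    intro δ hδ
    rw [LinearMap.mem_ker] at hδ ⊢
    exact funext fun t => h δ (fun s => congrFun hδ s) t
  let g : (Derivation k F F ⧸ LinearMap.ker LZ) →ₗ[F] (τ → F) := (LinearMap.ker LZ).liftQ LW hker
  have hg : Function.Surjective g := by
    intro v
    obtain ⟨δ, hδ⟩ := hsur v
    exact ⟨Submodule.Quotient.mk δ, hδ⟩
  let e : (Derivation k F F ⧸ LinearMap.ker LZ) ≃ₗ[F] LinearMap.range LZ := LZ.quotKerEquivRange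
  have hfd : Module.Finite F (Derivation k F F ⧸ LinearMap.ker LZ) := Module.Finite.equiv e.symm
  have h1 : Fintype.card τ ≤ Module.finrank F (LinearMap.range LZ) := by
    rw [← e.finrank_eq, ← Module.finrank_fintype_fun_eq_card F]
    exact LinearMap.finrank_le_finrank_of_surjective hg
  have h2 : Module.finrank F (LinearMap.range LZ) ≤ Fintype.card σ := by
    rw [← Module.finrank_fintype_fun_eq_card F (η := σ)]
    exact Submodule.finrank_le _
  refine ⟨h1.trans h2, fun heq => Pool.Agent.H135R2.VS.algInd_of_der fun v => ?_⟩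
  have h3 : LinearMap.range LZ = ⊤ := by
    apply Submodule.eq_top_of_finrank_eq
    rw [Module.finrank_fintype_fun_eq_card]
    omega
  obtain ⟨D, hD⟩ := LinearMap.range_eq_top.1 h3 v
  exact ⟨D, fun s => congrFun hD s⟩

end Pool.Agent.V8H73.AN
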