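import Pool.Agent.V8H73.AN.Fun

/-!
# Zeros of systems as functions of the coefficients: the blocks of functions
-/

set_option autoImplicit false
set_option linter.unusedSectionVars false

open Set Filter MvPolynomial
open scoped Topology

namespace Pool.Agent.V8H73.AN

open Pool.Agent.V8H73

variable {n : ℕ} {S : Finset (Fin n × Ex n)} {U : Set (S → ℂ)}

/-- a nondegenerate zero which is an analytic function -/
structure B1 (U : Set (S → ℂ)) (ζ : (S → ℂ) → Fin n → ℂ) : Prop where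
  an : AnalyticOnNhd ℂ ζ U
  zero : ∀ x ∈ U, Ph x (ζ x) = 0
  simple : ∀ x ∈ U, (JJ x (ζ x) (ez (ζ x))).det ≠ 0

variable {ζ ζ' : (S → ℂ) → Fin n → ℂ}

theorem B1.z (h : B1 U ζ) (l : Fin n) : AnalyticOnNhd ℂ (fun x => ζ x l) U := fun x hx =>
  ((pl l).analyticAt _).comp_of_eq (h.an x hx) rfl

theorem B1.y (h : B1 U ζ) (l : Fin n) : AnalyticOnNhd ℂ (fun x => Complex.exp (ζ x l)) U := (h.z l).cexp

theorem B1.dz (h : B1 U ζ) (l : Fin n) (q : S) : AnalyticOnNhd ℂ (fun x => fderiv ℂ ζ x (Pi.single q 1) l) U := by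
  intro x hx
  have h1 : AnalyticAt ℂ (fderiv ℂ ζ) x := h.an.fderiv x hx
  have h2 := (((pl l).comp (ContinuousLinearMap.apply ℂ (Fin n → ℂ) (Pi.single q (1 : ℂ) : S → ℂ))).analyticAt
    (fderiv ℂ ζ x)).comp_of_eq h1 rfl
  exact h2

theorem B1.dsum (h : B1 U ζ) (m : Fin n → ℂ) {x : S → ℂ} (hx : x ∈ U) :
    HasFDerivAt (fun x => ∑ l, m l * ζ x l) (∑ l, m l • (pl l).comp (fderiv ℂ ζ x)) x := by
  refine HasFDerivAt.fun_sum fun l _ => ?_
  exact ((pl_deriv l (ζ x)).comp x (h.an x hx).differentiableAt.hasFDerivAt).const_mul (m l)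

variable {k F : Type} [Field k] [Field F] [Algebra k F] {κ : MvPolynomial S ℂ →+* k} {φ : AZ.An U →+* F}

/-- the coefficients -/
noncomputable def cK (κ : MvPolynomial S ℂ →+* k) : S → k := fun q => κ (X q)

theorem cF_cK (hM : Mod U κ φ) : cF F (cK κ) = fun q => φ (AZ.toAn U (X q)) := funext fun q => hM.tow (X q)

theorem ev_X (x : U) : (fun q : S => AZ.evp x (AZ.toAn U (X q))) = (x : S → ℂ) := funext fun q => eval_X q

theorem blk (hS : Four S) (hU : IsOpen U) (hne : U.Nonempty) (hM : Mod U κ φ) (h : B1 U ζ) :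
    Blk (cK κ) (fun l => φ (AZ.el (h.z l))) (fun l => φ (AZ.el (h.y l))) (fun l q => φ (AZ.el (h.dz l q))) := by
  have hdet : ∀ {A : Matrix (Fin n) (Fin n) (AZ.An U)}, (∃ x : U, (A.map (AZ.evp x)).det ≠ 0) → (A.map φ).det ≠ 0 := by
    rintro A ⟨x, hx⟩ h0
    have h1 : (A.map φ).det = φ A.det := (RingHom.map_det φ A).symm
    rw [h1] at h0
    have h2 : A.det = 0 := hM.inj (by rw [h0, map_zero])
    apply hx
    have h3 : (A.map (AZ.evp x)).det = AZ.evp x A.det := (RingHom.map_det (AZ.evp x) A).symm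
    rw [h3, h2, map_zero]
  refine ⟨fun j => ?_, ?_, ?_, fun q j => ?_⟩
  · rw [cF_cK hM, ← ev_Pj_map, ← map_zero φ]
    congr 1
    refine AZ.zero_of_evp fun x => ?_
    rw [ev_Pj_map, ev_X]
    exact congrFun (h.zero x x.2) j
  · rw [cF_cK hM, ← BB_map]
    obtain ⟨x0, hx0⟩ := hne
    obtain ⟨x, hx, hx'⟩ := BB_ne hS hU hx0 (h.an x0 hx0).continuousAt h.zero (h.simple x0 hx0)
    refine hdet ⟨⟨x, hx⟩, ?_⟩
    rw [BB_map, ev_X]
    exact hx'
  · rw [cF_cK hM, ← JJ_map]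
    obtain ⟨x0, hx0⟩ := hne
    refine hdet ⟨⟨x0, hx0⟩, ?_⟩
    rw [JJ_map, ev_X]
    exact h.simple x0 hx0
  · have h1 : ∀ l, JJ (cF F (cK κ)) (fun l => φ (AZ.el (h.z l))) (fun l => φ (AZ.el (h.y l))) j l =
        φ (JJ (fun q => AZ.toAn U (X q)) (fun l => AZ.el (h.z l)) (fun l => AZ.el (h.y l)) j l) := by
      intro l
      rw [cF_cK hM, ← JJ_map]
      rfl
    simp only [h1, ← map_mul, ← map_sum]
    rw [← mo_map]
    have h2 : (if j = q.1.1 then φ (mo q.1.2 (fun l => AZ.el (h.z l)) fun l => AZ.el (h.y l)) else 0) =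
        φ (if j = q.1.1 then (mo q.1.2 (fun l => AZ.el (h.z l)) fun l => AZ.el (h.y l)) else 0) := by
      split_ifs
      · rfl
      · rw [map_zero]
    rw [h2, ← map_neg]
    congr 1
    refine AZ.an_ext fun x => ?_
    have h3 := zero_deriv hU h.an h.zero x.2 q j
    rw [← AZ.evp_apply, ← AZ.evp_apply, map_sum, map_neg]
    have h4 : ∀ l, AZ.evp x (JJ (fun q => AZ.toAn U (X q)) (fun l => AZ.el (h.z l)) (fun l => AZ.el (h.y l)) j l) =
        JJ (x : S → ℂ) (ζ x) (ez (ζ x)) j l := by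
      intro l
      have h5 := congrFun (congrFun (JJ_map (AZ.evp x) (fun q => AZ.toAn U (X q)) (fun l => AZ.el (h.z l))
        (fun l => AZ.el (h.y l))) j) l
      rw [ev_X] at h5
      exact h5
    have h5 : AZ.evp x (if j = q.1.1 then (mo q.1.2 (fun l => AZ.el (h.z l)) fun l => AZ.el (h.y l)) else 0) =
        if j = q.1.1 then mo q.1.2 (ζ x) (ez (ζ x)) else 0 := by
      split_ifs
      · rw [mo_map]
        rfl
      · rw [map_zero]
    rw [h5, ← h3]
    change _ = ∑ l, JJ (x : S → ℂ) (ζ x) (ez (ζ x)) j l * fderiv ℂ ζ x (Pi.single q 1) l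
    refine Finset.sum_congr rfl fun l _ => ?_
    rw [map_mul, h4, AZ.evp_el]

theorem rel_F (hM : Mod U κ φ) (hU : IsOpen U) {ι : Type} [Fintype ι] {z : ι → (S → ℂ) → Fin n → ℂ}
    (h : ∀ i, B1 U (z i)) (h' : B1 U ζ') {m : ι → Fin n → ℂ} {m' : Fin n → ℂ} {C0 : ℂ}
    (hC : ∀ x ∈ U, ∑ i, ∑ l, m i l * z i x l + ∑ l, m' l * ζ' x l = C0) (q : S) :
    ∑ i, ∑ l, algebraMap k F (κ (C (m i l))) * φ (AZ.el ((h i).dz l q)) +
      ∑ l, algebraMap k F (κ (C (m' l))) * φ (AZ.el (h'.dz l q)) = 0 := by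
  simp only [hM.tow, ← map_mul, ← map_sum, ← map_add]
  rw [← map_zero φ]
  congr 1
  refine AZ.zero_of_evp fun x => ?_
  simp only [map_add, map_sum, map_mul, AZ.evp_el, AZ.evp_toAn, eval_C]
  have h1 := (HasFDerivAt.fun_sum (u := Finset.univ) fun i (_ : i ∈ Finset.univ) => (h i).dsum (m i) x.2).add
    (h'.dsum m' x.2)
  have h2 : (fun x => ∑ i, ∑ l, m i l * z i x l + ∑ l, m' l * ζ' x l) =ᶠ[𝓝 (x : S → ℂ)] fun _ => C0 := by
    filter_upwards [hU.mem_nhds x.2] with y hy using hC y hy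
  have h3 := (h1.congr_of_eventuallyEq h2.symm).unique (hasFDerivAt_const C0 (x : S → ℂ))
  have h4 := congrArg (fun L => L (Pi.single q 1)) h3
  simpa [pl_apply] using h4

end Pool.Agent.V8H73.AN
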