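import Mathlib
import Pool.Agent.H135R2.VS.Der

/-!
# Linear relations between points of varieties: derivations
-/

set_option autoImplicit false
set_option linter.unusedSectionVars false

namespace Pool.Agent.V8H73.AN

variable {k F : Type*} [Field k] [Field F] [Algebra k F]

/-- `u` is algebraic over `k(z)` -/
def Over (k : Type*) {F κ : Type*} [Field k] [Field F] [Algebra k F] (z : κ → F) (u : F) : Prop :=
  ∀ δ : Derivation k F F, (∀ l, δ (z l) = 0) → δ u = 0

variable {κ : Type*}

theorem Over.mul {z : κ → F} {u v : F} (hu : Over k z u) (hv : Over k z v) : Over k z (u * v) := by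
  intro δ h
  rw [Derivation.leibniz, hu δ h, hv δ h, smul_zero, smul_zero, add_zero]

theorem over_self (z : κ → F) (l : κ) : Over k z (z l) := fun _ h => h l

theorem sum_der {ι : Type*} (s : Finset ι) (D : ι → Derivation k F F) (x : F) : (∑ i ∈ s, D i) x = ∑ i ∈ s, D i x := by
  classical
  induction s using Finset.induction_on with
  | empty => simp
  | insert a s ha ih => rw [Finset.sum_insert ha, Finset.sum_insert ha, Derivation.add_apply, ih]

variable [Fintype κ] [DecidableEq κ]

/-- the chain rule -/
theorem Over.chain {z : κ → F} {u : F} (hu : Over k z u) {D : κ → Derivation k F F}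
    (hD : ∀ b l, D b (z l) = if l = b then 1 else 0) (δ : Derivation k F F) :
    δ u = ∑ b, δ (z b) * D b u := by
  have h1 : (δ - ∑ b, (δ (z b)) • D b) u = 0 := by
    apply hu
    intro l
    rw [Derivation.sub_apply, sum_der]
    simp only [Derivation.smul_apply, hD, smul_eq_mul, mul_ite, mul_one, mul_zero, Finset.sum_ite_eq,
      Finset.mem_univ, if_true, sub_self]
  rw [Derivation.sub_apply, sum_der, sub_eq_zero] at h1
  simpa only [Derivation.smul_apply, smul_eq_mul] using h1

theorem Over.der {z : κ → F} {u : F} (hu : Over k z u) {D : Derivation k F F}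
    (hD : ∀ l, ∃ c : k, D (z l) = algebraMap k F c) : Over k z (D u) := by
  intro δ hδ
  have h1 : (⁅δ, D⁆ : Derivation k F F) u = 0 := by
    apply hu
    intro l
    obtain ⟨c, hc⟩ := hD l
    rw [Derivation.commutator_apply, hc, hδ, map_zero, Derivation.map_algebraMap, sub_zero]
  rw [Derivation.commutator_apply, hu δ hδ, map_zero, sub_zero] at h1
  exact h1

variable {ι : Type*} [Fintype ι] [DecidableEq ι]

/-- the relations between the blocks -/
structure Lin (k : Type*) {F ι κ : Type*} [Field k] [Field F] [Algebra k F] [Fintype ι] [Fintype κ] [DecidableEq κ]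
    (z : ι → κ → F) (z' : κ → F) (A : ι → Matrix κ κ k) (C : κ → k) (a b : ι) : Prop where
  ind : AlgebraicIndependent k fun q : ι × κ => z q.1 q.2
  eq : ∀ l, z' l = algebraMap k F (C l) + ∑ i, ∑ c, algebraMap k F (A i l c) * z i c
  ne : a ≠ b
  ia : IsUnit (A a)
  ib : IsUnit (A b)

variable {z : ι → κ → F} {z' : κ → F} {A : ι → Matrix κ κ k} {C : κ → k} {a b : ι}

theorem der_of (hz : AlgebraicIndependent k fun q : ι × κ => z q.1 q.2) [CharZero k] (i : ι) (v : κ → F) :
    ∃ E : Derivation k F F, ∀ i' l, E (z i' l) = if i' = i then v l else 0 := by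
  obtain ⟨E, hE⟩ := Pool.Agent.H135R2.VS.exists_der hz (fun q => if q.1 = i then v q.2 else 0)
  exact ⟨E, fun i' l => hE (i', l)⟩

/-- the derivations with respect to the last block, one block moves -/
theorem Lin.der (h : Lin k z z' A C a b) [CharZero k] {i : ι} (hi : IsUnit (A i)) (c : κ) :
    ∃ E : Derivation k F F, (∀ l, E (z' l) = if l = c then 1 else 0) ∧ (∀ i', i' ≠ i → ∀ l, E (z i' l) = 0) ∧
      ∀ l, ∃ s : k, E (z i l) = algebraMap k F s := by
  obtain ⟨E, hE⟩ := der_of h.ind i fun l => algebraMap k F ((A i)⁻¹ l c)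
  refine ⟨E, fun l => ?_, fun i' hi' l => by rw [hE, if_neg hi'], fun l => ⟨(A i)⁻¹ l c, by rw [hE, if_pos rfl]⟩⟩
  rw [h.eq l, map_add, Derivation.map_algebraMap, zero_add, map_sum]
  rw [Finset.sum_eq_single i (fun i' _ hi' => by
      rw [map_sum]
      refine Finset.sum_eq_zero fun c' _ => ?_
      rw [Derivation.leibniz, Derivation.map_algebraMap, hE, if_neg hi', smul_zero, smul_zero, add_zero])
    (fun h => absurd (Finset.mem_univ i) h), map_sum]
  have h1 : ∀ c', E (algebraMap k F (A i l c') * z i c') = algebraMap k F (A i l c' * (A i)⁻¹ c' c) := by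
    intro c'
    rw [Derivation.leibniz, Derivation.map_algebraMap, smul_zero, add_zero, hE, if_pos rfl, smul_eq_mul, map_mul]
  simp only [h1]
  rw [← map_sum, ← Matrix.mul_apply, Matrix.mul_nonsing_inv _ ((Matrix.isUnit_iff_isUnit_det _).1 hi), Matrix.one_apply]
  split_ifs <;> simp

/-- the main step -/
theorem Lin.key (h : Lin k z z' A C a b) [CharZero k] {D : κ → Derivation k F F}
    (hD : ∀ b l, D b (z' l) = if l = b then 1 else 0) {u : ι → F} {u' : F} (hu : ∀ i, Over k (z i) (u i))
    (hu' : Over k z' u') (hR : ∑ i, u i + u' = 0) (c : κ) (δ : Derivation k F F) : δ (D c u') = 0 := by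
  have hover : ∀ i, IsUnit (A i) → Over k (z i) (D c u') := by
    intro i hi
    obtain ⟨E, hE1, hE2, hE3⟩ := h.der hi c
    have h1 : D c u' = E u' := by
      have h2 : (D c - E) u' = 0 := hu' _ fun l => by rw [Derivation.sub_apply, hD, hE1, sub_self]
      rw [Derivation.sub_apply, sub_eq_zero] at h2
      exact h2
    have h3 : E (u i) + E u' = 0 := by
      have h4 := congrArg E hR
      rw [map_add, map_sum, map_zero] at h4
      rwa [Finset.sum_eq_single i (fun i' _ hi' => hu i' E (hE2 i' hi'))
        (fun h => absurd (Finset.mem_univ i) h)] at h4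
    have h5 : D c u' = - E (u i) := by rw [h1]; linear_combination h3
    intro δ hδ
    rw [h5, map_neg, (hu i).der hE3 δ hδ, neg_zero]
  have hE : ∀ l : κ, ∃ E : Derivation k F F, ∀ i' l', E (z i' l') = if i' = a then (if l' = l then 1 else 0) else 0 :=
    fun l => der_of h.ind a fun l' => if l' = l then 1 else 0
  choose E hE using hE
  have h1 := (hover a h.ia).chain (D := E) (fun b l => by rw [hE, if_pos rfl]) δ
  rw [h1]
  refine Finset.sum_eq_zero fun l _ => ?_
  rw [hover b h.ib (E l) (fun l' => by rw [hE, if_neg h.ne.symm]), mul_zero]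

/-- **The core.** -/
theorem Lin.core (h : Lin k z z' A C a b) [CharZero k] [CharZero F] {y : ι → κ → F} {w : ι → F} {y' : κ → F} {w' : F}
    (hy : ∀ i l, Over k (z i) (y i l)) (hw : ∀ i, Over k (z i) (w i)) (hy' : ∀ l, Over k z' (y' l))
    (hw' : Over k z' w') (hw0 : w' ≠ 0) (R1 : ∑ i, w i + w' = 0) (R2 : ∀ l, ∑ i, w i * z i l + w' * z' l = 0)
    (R3 : ∀ l, ∑ i, w i * y i l + w' * y' l = 0) (R4 : ∀ l, ∑ i, w i * (z i l * y i l) + w' * (z' l * y' l) = 0) :
    ∃ D : κ → Derivation k F F, (∀ b l, D b (z' l) = if l = b then 1 else 0) ∧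
      ∀ l (δ : Derivation k F F), δ (y' l) = 0 := by
  choose D hD _ _ using fun c => h.der h.ia c
  have q1 : ∀ c (δ : Derivation k F F), δ (D c w') = 0 := h.key hD hw hw' R1
  have q2 : ∀ l c (δ : Derivation k F F), δ (D c (w' * z' l)) = 0 := fun l =>
    h.key hD (fun i => (hw i).mul (over_self _ l)) (hw'.mul (over_self _ l)) (R2 l)
  have q3 : ∀ l c (δ : Derivation k F F), δ (D c (w' * y' l)) = 0 := fun l =>
    h.key hD (fun i => (hw i).mul (hy i l)) (hw'.mul (hy' l)) (R3 l)
  have q4 : ∀ l c (δ : Derivation k F F), δ (D c (w' * (z' l * y' l))) = 0 := fun l =>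
    h.key hD (fun i => (hw i).mul ((over_self _ l).mul (hy i l))) (hw'.mul ((over_self _ l).mul (hy' l))) (R4 l)
  have p1 : ∀ l, D l w' = 0 := by
    intro l
    have h1 := q2 l l (D l)
    rw [Derivation.leibniz, hD, if_pos rfl, smul_eq_mul, smul_eq_mul, mul_one, map_add, Derivation.leibniz, q1 l (D l),
      hD, if_pos rfl] at h1
    simp only [smul_eq_mul, mul_zero, mul_one, zero_add] at h1
    have h2 : (2 : F) * D l w' = 0 := by linear_combination h1
    exact (mul_eq_zero.1 h2).resolve_left two_ne_zero
  have p2 : ∀ l b c, D c (D b (y' l)) = 0 := by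
    intro l b c
    have h1 := q3 l b (D c)
    rw [Derivation.leibniz, p1] at h1
    simp only [smul_eq_mul, mul_zero, add_zero] at h1
    rw [Derivation.leibniz, p1] at h1
    simp only [smul_eq_mul, mul_zero, add_zero] at h1
    exact (mul_eq_zero.1 h1).resolve_left hw0
  have p3 : ∀ l b, D b (y' l) = 0 := by
    intro l b
    have h1 := q4 l b (D l)
    rw [Derivation.leibniz, p1] at h1
    simp only [smul_eq_mul, mul_zero, add_zero] at h1
    rw [Derivation.leibniz, p1] at h1
    simp only [smul_eq_mul, mul_zero, add_zero] at h1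
    have h2 := (mul_eq_zero.1 h1).resolve_left hw0
    rw [Derivation.leibniz, hD] at h2
    by_cases hlb : l = b
    · subst hlb
      simp only [smul_eq_mul, if_true, mul_one] at h2
      rw [map_add, Derivation.leibniz, hD, if_pos rfl, p2] at h2
      simp only [smul_eq_mul, mul_one, mul_zero, zero_add] at h2
      have h3 : (2 : F) * D l (y' l) = 0 := by linear_combination h2
      exact (mul_eq_zero.1 h3).resolve_left two_ne_zero
    · simp only [smul_eq_mul, if_neg hlb, mul_zero, add_zero] at h2
      rw [Derivation.leibniz, hD, if_pos rfl, p2] at h2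
      simpa using h2
  refine ⟨D, hD, fun l δ => ?_⟩
  rw [(hy' l).chain hD δ]
  exact Finset.sum_eq_zero fun b _ => by rw [p3, mul_zero]

/-- a polynomial with constant coefficients which vanishes at elements with independent derivatives is zero -/
theorem mv_zero [CharZero F] {D : κ → Derivation k F F} (hD : ∀ b l, D b (z' l) = if l = b then 1 else 0) :
    ∀ (n : ℕ) (Q : MvPolynomial κ F), Q.totalDegree ≤ n → (∀ b m, D b (Q.coeff m) = 0) →
      MvPolynomial.eval z' Q = 0 → Q = 0 := by
  have hder : ∀ b (Q : MvPolynomial κ F), (∀ m, D b (Q.coeff m) = 0) →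
      D b (MvPolynomial.eval z' Q) = MvPolynomial.eval z' (MvPolynomial.pderiv b Q) := by
    intro b Q hQ
    have h1 : ∀ m : κ →₀ ℕ, D b (MvPolynomial.eval z' (MvPolynomial.monomial m (1 : F))) =
        MvPolynomial.eval z' (MvPolynomial.pderiv b (MvPolynomial.monomial m (1 : F))) := by
      intro m
      induction m using Finsupp.induction_linear with
      | zero => simp
      | add p q hp hq =>
        have e1 : (MvPolynomial.monomial (p + q) (1 : F)) = MvPolynomial.monomial p 1 * MvPolynomial.monomial q 1 := by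
          rw [MvPolynomial.monomial_mul, one_mul]
        rw [e1, map_mul, Derivation.leibniz, hp, hq, Derivation.leibniz, map_add]
        simp only [smul_eq_mul, map_mul]
      | single l e =>
        have e1 : (MvPolynomial.monomial (Finsupp.single l e) (1 : F)) = MvPolynomial.X l ^ e := by
          rw [MvPolynomial.X_pow_eq_monomial]
        rw [e1, map_pow, MvPolynomial.eval_X, Derivation.leibniz_pow, hD, Derivation.leibniz_pow, MvPolynomial.pderiv_X]
        by_cases hlb : l = b
        · subst hlb
          simp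
        · rw [if_neg hlb, Pi.single_eq_of_ne hlb]
          simp
    rw [MvPolynomial.as_sum Q, map_sum, map_sum, map_sum, map_sum]
    refine Finset.sum_congr rfl fun m _ => ?_
    have e2 : MvPolynomial.monomial m (Q.coeff m) = MvPolynomial.C (Q.coeff m) * MvPolynomial.monomial m 1 := by
      rw [MvPolynomial.C_mul_monomial, mul_one]
    rw [e2, map_mul, MvPolynomial.eval_C, Derivation.leibniz, hQ, h1, Derivation.leibniz]
    simp
  intro n
  induction n with
  | zero =>
    intro Q hg hc h0
    rw [Nat.le_zero, MvPolynomial.totalDegree_eq_zero_iff_eq_C] at hg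
    rw [hg, MvPolynomial.eval_C] at h0
    rw [hg, h0, MvPolynomial.C_0]
  | succ n ih =>
    intro g hg hc h0
    have hz : ∀ i, MvPolynomial.pderiv i g = 0 := by
      intro i
      refine ih _ ?_ ?_ ?_
      · unfold MvPolynomial.totalDegree
        refine Finset.sup_le fun m hm => ?_
        rw [MvPolynomial.mem_support_iff, MvPolynomial.coeff_pderiv] at hm
        have h1 : m + Finsupp.single i 1 ∈ g.support := by
          rw [MvPolynomial.mem_support_iff]
          intro h2
          rw [h2, zero_mul] at hm
          exact hm rfl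
        have h2 := MvPolynomial.le_totalDegree h1
        rw [Finsupp.sum_add_index' (fun _ => rfl) (fun _ _ _ => rfl),
          Finsupp.sum_single_index rfl] at h2
        omega
      · intro b m
        rw [MvPolynomial.coeff_pderiv, Derivation.leibniz, hc, smul_zero, add_zero]
        have h1 : ((m i : F) + 1) = ((m i + 1 : ℕ) : F) := by push_cast; ring
        rw [h1, Derivation.map_natCast, smul_zero]
      · rw [← hder i g (hc i), h0, map_zero]
    have hco : ∀ m, m ≠ 0 → MvPolynomial.coeff m g = 0 := by
      intro m hm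
      obtain ⟨i, hi⟩ := Finsupp.ne_iff.1 hm
      rw [Finsupp.zero_apply] at hi
      have h1 : m = (m - Finsupp.single i 1) + Finsupp.single i 1 := by
        rw [tsub_add_cancel_of_le]
        rw [Finsupp.single_le_iff]
        omega
      have h2 := MvPolynomial.coeff_pderiv (i := i) g (m - Finsupp.single i 1)
      rw [hz i, MvPolynomial.coeff_zero, ← h1] at h2
      rcases mul_eq_zero.1 h2.symm with h3 | h3
      · exact h3
      · exfalso
        have : ((m - Finsupp.single i 1 : κ →₀ ℕ) i : F) + 1 ≠ 0 := Nat.cast_add_one_ne_zero _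
        exact this h3
    have hC : g = MvPolynomial.C (MvPolynomial.coeff 0 g) := by
      ext m
      rw [MvPolynomial.coeff_C]
      by_cases hm : 0 = m
      · rw [if_pos hm, hm]
      · rw [if_neg hm, hco m (Ne.symm hm)]
    rw [hC, MvPolynomial.eval_C] at h0
    rw [hC, h0, MvPolynomial.C_0]

end Pool.Agent.V8H73.AN
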