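import Pool.Agent.V8H73.AN.Core

/-!
# Linear relations between points of varieties: the equations
-/

set_option autoImplicit false
set_option linter.unusedSectionVars false

open MvPolynomial

namespace Pool.Agent.V8H73.AN

/-- the exponents -/
abbrev Ex (n : ℕ) : Type := Fin n ⊕ Fin n →₀ ℕ

variable {n : ℕ}

section ring

variable {A B : Type*} [CommRing A] [CommRing B] {S : Finset (Fin n × Ex n)}

/-- the equations -/
noncomputable def Pj (c : S → A) (j : Fin n) : MvPolynomial (Fin n ⊕ Fin n) A :=
  ∑ q : S, if q.1.1 = j then monomial q.1.2 (c q) else 0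

/-- the Jacobian matrix along the graph of the exponential function -/
noncomputable def JJ (c : S → A) (z y : Fin n → A) : Matrix (Fin n) (Fin n) A := Matrix.of fun j l =>
  eval (Sum.elim z y) (pderiv (Sum.inl l) (Pj c j)) + y l * eval (Sum.elim z y) (pderiv (Sum.inr l) (Pj c j))

/-- the Jacobian matrix with respect to the second half of the variables -/
noncomputable def BB (c : S → A) (z y : Fin n → A) : Matrix (Fin n) (Fin n) A := Matrix.of fun j l =>
  eval (Sum.elim z y) (pderiv (Sum.inr l) (Pj c j))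

/-- the value of a monomial -/
noncomputable def mo (p : Ex n) (z y : Fin n → A) : A := eval (Sum.elim z y) (monomial p 1)

theorem ev_map (φ : A →+* B) (v : Fin n ⊕ Fin n → A) (P : MvPolynomial (Fin n ⊕ Fin n) A) :
    φ (eval v P) = eval (fun o => φ (v o)) (map φ P) := by
  rw [eval_map, ← eval₂_id, eval₂_comp_left, RingHom.comp_id]
  rfl

theorem Pj_map (φ : A →+* B) (c : S → A) (j : Fin n) : map φ (Pj c j) = Pj (fun q => φ (c q)) j := by
  unfold Pj
  rw [map_sum]
  refine Finset.sum_congr rfl fun q _ => ?_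
  split_ifs
  · rw [map_monomial]
  · rw [map_zero]

theorem elim_map (φ : A →+* B) (z y : Fin n → A) :
    (fun o => φ ((Sum.elim z y : Fin n ⊕ Fin n → A) o)) = Sum.elim (fun l => φ (z l)) (fun l => φ (y l)) := by
  funext o
  rcases o with l | l <;> rfl

theorem ev_Pj_map (φ : A →+* B) (c : S → A) (z y : Fin n → A) (j : Fin n) :
    φ (eval (Sum.elim z y) (Pj c j)) =
      eval (Sum.elim (fun l => φ (z l)) (fun l => φ (y l))) (Pj (fun q => φ (c q)) j) := by
  rw [ev_map, Pj_map, elim_map]

theorem ev_dPj_map (φ : A →+* B) (c : S → A) (z y : Fin n → A) (j : Fin n) (o : Fin n ⊕ Fin n) :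
    φ (eval (Sum.elim z y) (pderiv o (Pj c j))) =
      eval (Sum.elim (fun l => φ (z l)) (fun l => φ (y l))) (pderiv o (Pj (fun q => φ (c q)) j)) := by
  rw [ev_map, ← pderiv_map, Pj_map, elim_map]

theorem JJ_map (φ : A →+* B) (c : S → A) (z y : Fin n → A) :
    (JJ c z y).map φ = JJ (fun q => φ (c q)) (fun l => φ (z l)) (fun l => φ (y l)) := by
  ext j l
  simp only [JJ, Matrix.map_apply, Matrix.of_apply, map_add, map_mul, ev_dPj_map]

theorem BB_map (φ : A →+* B) (c : S → A) (z y : Fin n → A) :
    (BB c z y).map φ = BB (fun q => φ (c q)) (fun l => φ (z l)) (fun l => φ (y l)) := by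
  ext j l
  simp only [BB, Matrix.map_apply, Matrix.of_apply, ev_dPj_map]

theorem mo_map (φ : A →+* B) (p : Ex n) (z y : Fin n → A) :
    φ (mo p z y) = mo p (fun l => φ (z l)) (fun l => φ (y l)) := by
  unfold mo
  rw [ev_map, map_monomial, map_one, elim_map]

theorem mo_zero (z y : Fin n → A) : mo 0 z y = 1 := by
  unfold mo
  rw [monomial_zero', map_one, map_one]

theorem mo_x (l : Fin n) (z y : Fin n → A) : mo (Finsupp.single (Sum.inl l) 1) z y = z l := by
  unfold mo
  rw [← X, eval_X]
  rfl

theorem mo_y (l : Fin n) (z y : Fin n → A) : mo (Finsupp.single (Sum.inr l) 1) z y = y l := by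
  unfold mo
  rw [← X, eval_X]
  rfl

theorem mo_xy (l : Fin n) (z y : Fin n → A) :
    mo (Finsupp.single (Sum.inl l) 1 + Finsupp.single (Sum.inr l) 1) z y = z l * y l := by
  unfold mo
  have h1 : (monomial (Finsupp.single (Sum.inl l) 1 + Finsupp.single (Sum.inr l) 1) (1 : A)) =
      X (Sum.inl l) * X (Sum.inr l) := by
    unfold X
    rw [monomial_mul, one_mul]
  rw [h1, map_mul, eval_X, eval_X]
  rfl

end ring

variable {k F : Type*} [Field k] [Field F] [Algebra k F]

/-- the chain rule for polynomials with constant coefficients -/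
theorem der_ev {σ : Type*} [Fintype σ] [DecidableEq σ] (δ : Derivation k F F) (v : σ → F) (P : MvPolynomial σ k) :
    δ (eval v (map (algebraMap k F) P)) = ∑ o, eval v (map (algebraMap k F) (pderiv o P)) * δ (v o) := by
  induction P using MvPolynomial.induction_on with
  | C a => simp
  | add p q hp hq =>
    simp only [map_add, hp, hq, add_mul, Finset.sum_add_distrib]
  | mul_X p o hp =>
    simp only [map_mul, map_X, eval_X, Derivation.leibniz, hp, smul_eq_mul, pderiv_X, map_add, add_mul,
      Finset.sum_add_distrib]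
    have h1 : ∀ x : σ, eval v (map (algebraMap k F) ((Pi.single x 1 : σ → MvPolynomial σ k) o)) =
        if x = o then 1 else 0 := by
      intro x
      by_cases h : x = o
      · subst h
        simp
      · rw [if_neg h, Pi.single_eq_of_ne (Ne.symm h)]
        simp
    simp only [h1, mul_ite, mul_one, mul_zero, ite_mul, zero_mul, Finset.sum_ite_eq', Finset.mem_univ, if_true]
    rw [Finset.mul_sum]
    congr 1
    exact Finset.sum_congr rfl fun x _ => by ring

variable {S : Finset (Fin n × Ex n)} {c : S → k}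

/-- the coefficients in the large field -/
def cF (F : Type*) [Field F] [Algebra k F] (c : S → k) : S → F := fun q => algebraMap k F (c q)

theorem der_Pj (δ : Derivation k F F) (z y : Fin n → F) (j : Fin n) :
    δ (eval (Sum.elim z y) (Pj (cF F c) j)) =
      ∑ l, eval (Sum.elim z y) (pderiv (Sum.inl l) (Pj (cF F c) j)) * δ (z l) +
      ∑ l, eval (Sum.elim z y) (pderiv (Sum.inr l) (Pj (cF F c) j)) * δ (y l) := by
  have h1 : Pj (cF F c) j = map (algebraMap k F) (Pj c j) := (Pj_map (algebraMap k F) c j).symm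
  rw [h1, der_ev, Fintype.sum_sum_type]
  simp only [pderiv_map, Sum.elim_inl, Sum.elim_inr]

theorem over_y {z y : Fin n → F} (hP : ∀ j, eval (Sum.elim z y) (Pj (cF F c) j) = 0)
    (hB : (BB (cF F c) z y).det ≠ 0) (l : Fin n) : Over k z (y l) := by
  intro δ hδ
  have h1 : (BB (cF F c) z y).mulVec (fun l => δ (y l)) = 0 := by
    funext j
    have h2 := der_Pj (c := c) δ z y j
    rw [hP, map_zero] at h2
    simp only [hδ, mul_zero, Finset.sum_const_zero, zero_add] at h2
    rw [Pi.zero_apply, h2]
    rfl
  exact congrFun (Matrix.eq_zero_of_mulVec_eq_zero hB h1) l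

/-- values of polynomials with constant coefficients at killed elements are killed -/
theorem der_ev_zero {σ : Type*} [Fintype σ] [DecidableEq σ] (δ : Derivation k F F) {v : σ → F} (h : ∀ o, δ (v o) = 0)
    (P : MvPolynomial σ k) : δ (eval v (map (algebraMap k F) P)) = 0 := by
  rw [der_ev]
  exact Finset.sum_eq_zero fun o _ => by rw [h, mul_zero]

theorem JJ_der {z y : Fin n → F} (δ : Derivation k F F) (hz : ∀ l, δ (z l) = 0) (hy : ∀ l, δ (y l) = 0) (j l : Fin n) :
    δ (JJ (cF F c) z y j l) = 0 := by
  have hv : ∀ o, δ ((Sum.elim z y : Fin n ⊕ Fin n → F) o) = 0 := by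
    rintro (o | o)
    · exact hz o
    · exact hy o
  have h1 : Pj (cF F c) j = map (algebraMap k F) (Pj c j) := (Pj_map (algebraMap k F) c j).symm
  unfold JJ
  rw [Matrix.of_apply, h1, pderiv_map, pderiv_map, map_add, der_ev_zero δ hv, Derivation.leibniz, der_ev_zero δ hv, hy,
    smul_zero, smul_zero, add_zero, add_zero]

/-- the weights -/
theorem over_w {z y : Fin n → F} (hy : ∀ l, Over k z (y l)) (hJ : (JJ (cF F c) z y).det ≠ 0) {m : Fin n → k}
    {w : Fin n → F} (hw : Matrix.vecMul w (JJ (cF F c) z y) = fun l => algebraMap k F (m l)) (j : Fin n) :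
    Over k z (w j) := by
  intro δ hδ
  have h1 : Matrix.vecMul (fun j => δ (w j)) (JJ (cF F c) z y) = 0 := by
    funext l
    have h2 := congrArg δ (congrFun hw l)
    rw [Derivation.map_algebraMap] at h2
    have h3 : δ (Matrix.vecMul w (JJ (cF F c) z y) l) =
        ∑ j, (w j * δ (JJ (cF F c) z y j l) + JJ (cF F c) z y j l * δ (w j)) := by
      change δ (∑ j, w j * JJ (cF F c) z y j l) = _
      rw [map_sum]
      refine Finset.sum_congr rfl fun j _ => ?_
      rw [Derivation.leibniz, smul_eq_mul, smul_eq_mul]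
    rw [h3] at h2
    simp only [JJ_der δ hδ (fun l => hy l δ hδ), mul_zero, zero_add] at h2
    rw [Pi.zero_apply, ← h2]
    change ∑ j, δ (w j) * JJ (cF F c) z y j l = _
    exact Finset.sum_congr rfl fun j _ => by ring
  exact congrFun (Matrix.eq_zero_of_vecMul_eq_zero hJ h1) j

end Pool.Agent.V8H73.AN
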