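import Pool.Agent.V8H73.AN.Bra

/-!
# Zeros of systems as functions of the coefficients: no linear relations
-/

set_option autoImplicit false
set_option linter.unusedSectionVars false

open Set Filter MvPolynomial
open scoped Topology

namespace Pool.Agent.V8H73.AN

open Pool.Agent.V8H73

variable {n : ℕ} {S : Finset (Fin n × Ex n)} {U : Set (S → ℂ)}

/-- different nondegenerate zeros which are analytic functions -/
structure Br {ι : Type} (U : Set (S → ℂ)) (ζ : ι → (S → ℂ) → Fin n → ℂ) : Prop where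
  b : ∀ i, B1 U (ζ i)
  dist : ∀ i j, i ≠ j → ∃ x ∈ U, ζ i x ≠ ζ j x

theorem Br.comp {ι ι' : Type} {ζ : ι → (S → ℂ) → Fin n → ℂ} (h : Br U ζ) {e : ι' → ι} (he : Function.Injective e) :
    Br U fun i => ζ (e i) := ⟨fun _ => h.b _, fun _ _ hij => h.dist _ _ fun h1 => hij (he h1)⟩

variable {k F : Type} [Field k] [Field F] [Algebra k F] {κ : MvPolynomial S ℂ →+* k} {φ : AZ.An U →+* F}

/-- no linear relation between the coordinates -/
def Fr {ι : Type} [Fintype ι] (U : Set (S → ℂ)) (ζ : ι → (S → ℂ) → Fin n → ℂ) : Prop :=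
  ∀ (m : ι → Fin n → ℂ) (C : ℂ), (∀ x ∈ U, ∑ i, ∑ l, m i l * ζ i x l = C) → m = 0

/-- (E1) -/
theorem ind_of_free (hS : Four S) (hM : Mod U κ φ) (hU : IsOpen U) (hc : IsPreconnected U) (hne : U.Nonempty)
    {ι : Type} [Fintype ι] {ζ : ι → (S → ℂ) → Fin n → ℂ} (h : Br U ζ) (hf : Fr U ζ) :
    AlgebraicIndependent k fun q : ι × Fin n => φ (AZ.el ((h.b q.1).z q.2)) := by
  refine (count_fn hM hU hc hne (σ := ι × Fin n) (z := fun q x => ζ q.1 x q.2) (fun q => (h.b q.1).z q.2)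
    (fun m C hC => ?_) (Z := fun q : ι × Fin n => φ (AZ.el ((h.b q.1).z q.2))) fun δ hδ q => ⟨hδ q, ?_⟩).2 rfl
  · have h1 := hf (fun i l => (m (i, l) : ℂ)) C fun x hx => by
      rw [← hC x hx, Fintype.sum_prod_type]
    funext q
    have h2 := congrFun (congrFun h1 q.1) q.2
    simpa using h2
  · have hb := blk hS hU hne hM (h.b q.1)
    exact over_y hb.P hb.B q.2 δ fun l => hδ (q.1, l)

/-- (E2) -/
theorem last_rel (hS : Four S) (hM : Mod U κ φ) (hU : IsOpen U) (hc : IsPreconnected U) (hne : U.Nonempty)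
    {ι : Type} [Fintype ι] [DecidableEq ι] {ζ : ι → (S → ℂ) → Fin n → ℂ} (h : ∀ i, B1 U (ζ i)) (hf : Fr U ζ)
    {ζ' : (S → ℂ) → Fin n → ℂ} (h' : B1 U ζ') {m : ι → Fin n → ℂ} {m' : Fin n → ℂ} (hm' : m' ≠ 0) {C0 : ℂ}
    (hC : ∀ x ∈ U, ∑ i, ∑ l, m i l * ζ i x l + ∑ l, m' l * ζ' x l = C0) (l : Fin n) :
    ∃ (A : ι → Fin n → ℂ) (C1 : ℂ), ∀ x ∈ U, ζ' x l = C1 + ∑ i, ∑ c, A i c * ζ i x c := by
  have hb := fun i => blk hS hU hne hM (h i)
  have hb' := blk hS hU hne hM h'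
  have hkm : (fun l => κ (C (m' l))) ≠ 0 := by
    intro h0
    apply hm'
    funext l
    have h1 := congrFun h0 l
    have h2 : (C (m' l) : MvPolynomial S ℂ) = 0 := hM.kinj (by rw [map_zero]; exact h1)
    exact C_eq_zero.1 h2
  by_contra hcon
  have h1 := (count_fn hM hU hc hne (σ := (ι × Fin n) ⊕ Unit)
    (z := fun s => s.elim (fun q x => ζ q.1 x q.2) fun _ x => ζ' x l)
    (fun s => by
      rcases s with q | u
      · exact (h q.1).z q.2
      · exact h'.z l)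
    (fun a C2 ha => ?_) (ρ := ι × Fin n) (Z := fun q : ι × Fin n => φ (AZ.el ((h q.1).z q.2))) fun δ hδ s => ?_).1
  · simp only [Fintype.card_sum, Fintype.card_unit] at h1
    omega
  · have ha' : ∀ x ∈ U, ∑ i, ∑ c, (a (Sum.inl (i, c)) : ℂ) * ζ i x c + (a (Sum.inr ()) : ℂ) * ζ' x l = C2 := by
      intro x hx
      have h2 := ha x hx
      rw [Fintype.sum_sum_type, Fintype.sum_prod_type] at h2
      simpa using h2
    by_cases h0 : a (Sum.inr ()) = 0
    · have h2 := hf (fun i c => (a (Sum.inl (i, c)) : ℂ)) C2 fun x hx => by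
        have h3 := ha' x hx
        rw [h0, Int.cast_zero, zero_mul, add_zero] at h3
        exact h3
      funext s
      rcases s with q | u
      · have h3 := congrFun (congrFun h2 q.1) q.2
        simpa using h3
      · exact h0
    · exfalso
      apply hcon
      have hac : (a (Sum.inr ()) : ℂ) ≠ 0 := by exact_mod_cast h0
      refine ⟨fun i c => - (a (Sum.inl (i, c)) : ℂ) / (a (Sum.inr ()) : ℂ), C2 / (a (Sum.inr ()) : ℂ), fun x hx => ?_⟩
      have h3 := ha' x hx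
      have h4 : ∑ i, ∑ c, - (a (Sum.inl (i, c)) : ℂ) / (a (Sum.inr ()) : ℂ) * ζ i x c =
          - (∑ i, ∑ c, (a (Sum.inl (i, c)) : ℂ) * ζ i x c) / (a (Sum.inr ()) : ℂ) := by
        rw [neg_div, Finset.sum_div, ← Finset.sum_neg_distrib]
        refine Finset.sum_congr rfl fun i _ => ?_
        rw [Finset.sum_div, ← Finset.sum_neg_distrib]
        exact Finset.sum_congr rfl fun c _ => by ring
      rw [h4]
      field_simp
      linear_combination h3
  · have h2 : ∀ l, δ (φ (AZ.el (h'.z l))) = 0 := fun l =>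
      last_killed hS hb hb' hkm (fun q => rel_F hM hU h h' hC q) δ (fun i l => hδ (i, l)) l
    rcases s with q | u
    · exact ⟨hδ q, over_y (hb q.1).P (hb q.1).B q.2 δ fun l => hδ (q.1, l)⟩
    · exact ⟨h2 l, over_y hb'.P hb'.B l δ h2⟩

/-- one or two blocks -/
theorem no_rel_one (hS : Four S) (hM : Mod U κ φ) (hU : IsOpen U) (hne : U.Nonempty)
    {ζ : Fin 0 → (S → ℂ) → Fin n → ℂ} {ζ' : (S → ℂ) → Fin n → ℂ} (h' : B1 U ζ') {m' : Fin n → ℂ} (hm' : m' ≠ 0) {C0 : ℂ}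
    (hC : ∀ x ∈ U, ∑ l, m' l * ζ' x l = C0) : False := by
  have hb' := blk hS hU hne hM h'
  have hkm : (fun l => κ (C (m' l))) ≠ 0 := by
    intro h0
    apply hm'
    funext l
    have h1 := congrFun h0 l
    have h2 : (C (m' l) : MvPolynomial S ℂ) = 0 := hM.kinj (by rw [map_zero]; exact h1)
    exact C_eq_zero.1 h2
  obtain ⟨w', hw'⟩ := exists_w hb'.J fun l => κ (C (m' l))
  obtain ⟨j, hj⟩ := w_ne hkm hw'
  have h1 := rels (ι := Fin 0) (z := fun i => i.elim0) (y := fun i => i.elim0) (dz := fun i => i.elim0)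
    (m := fun i => i.elim0) (w := fun i => i.elim0) (fun i => i.elim0) hb'
    (fun q => by
      have h2 := rel_F hM hU (ι := Fin 0) (z := ζ) (fun i => i.elim0) h' (m := fun i => i.elim0) (m' := m')
        (C0 := C0) (fun x hx => by rw [Finset.univ_eq_empty, Finset.sum_empty, zero_add]; exact hC x hx) q
      rw [Finset.univ_eq_empty, Finset.sum_empty, zero_add] at h2 ⊢
      exact h2) (fun i => i.elim0) hw' (hS.h0 j)
  rw [Finset.univ_eq_empty, Finset.sum_empty, zero_add, mo_zero, mul_one] at h1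
  exact hj h1

theorem no_rel_two (hS : Four S) (hM : Mod U κ φ) (hU : IsOpen U) (hne : U.Nonempty)
    {ζ : (S → ℂ) → Fin n → ℂ} {ζ' : (S → ℂ) → Fin n → ℂ} (h : B1 U ζ) (h' : B1 U ζ') {m m' : Fin n → ℂ} (hm' : m' ≠ 0)
    {C0 : ℂ} (hC : ∀ x ∈ U, ∑ l, m l * ζ x l + ∑ l, m' l * ζ' x l = C0) (hd : ∃ x ∈ U, ζ x ≠ ζ' x) : False := by
  have hb := blk hS hU hne hM h
  have hb' := blk hS hU hne hM h'
  have hkm : (fun l => κ (C (m' l))) ≠ 0 := by
    intro h0
    apply hm'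
    funext l
    have h1 := congrFun h0 l
    have h2 : (C (m' l) : MvPolynomial S ℂ) = 0 := hM.kinj (by rw [map_zero]; exact h1)
    exact C_eq_zero.1 h2
  obtain ⟨w, hw⟩ := exists_w hb.J fun l => κ (C (m l))
  obtain ⟨w', hw'⟩ := exists_w hb'.J fun l => κ (C (m' l))
  obtain ⟨j, hj⟩ := w_ne hkm hw'
  have h0 : ∀ q, ∑ i : Unit, ∑ l, algebraMap k F (κ (C (m l))) * φ (AZ.el (h.dz l q)) +
      ∑ l, algebraMap k F (κ (C (m' l))) * φ (AZ.el (h'.dz l q)) = 0 := fun q =>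
    rel_F hM hU (ι := Unit) (z := fun _ => ζ) (fun _ => h) h' (m := fun _ => m) (m' := m')
      (C0 := C0) (fun x hx => by rw [Fintype.sum_unique]; exact hC x hx) q
  have hr : ∀ p, (j, p) ∈ S → w j * mo p (fun l => φ (AZ.el (h.z l))) (fun l => φ (AZ.el (h.y l))) +
      w' j * mo p (fun l => φ (AZ.el (h'.z l))) (fun l => φ (AZ.el (h'.y l))) = 0 := by
    intro p hp
    have h1 := rels (ι := Unit) (z := fun _ l => φ (AZ.el (h.z l))) (y := fun _ l => φ (AZ.el (h.y l)))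
      (dz := fun _ l q => φ (AZ.el (h.dz l q))) (m := fun _ l => κ (C (m l))) (w := fun _ => w) (fun _ => hb) hb'
      h0 (fun _ => hw) hw' hp
    rw [Fintype.sum_unique] at h1
    exact h1
  obtain ⟨x, hx, hxx⟩ := hd
  apply hxx
  funext l
  have h1 := hr 0 (hS.h0 j)
  have h2 := hr _ (hS.hx j l)
  rw [mo_zero, mo_zero, mul_one, mul_one] at h1
  rw [mo_x, mo_x] at h2
  have h3 : w' j * (φ (AZ.el (h'.z l)) - φ (AZ.el (h.z l))) = 0 := by
    linear_combination h2 - φ (AZ.el (h.z l)) * h1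
  have h4 := sub_eq_zero.1 ((mul_eq_zero.1 h3).resolve_left hj)
  have h5 := congrArg (AZ.evp (⟨x, hx⟩ : U)) (hM.inj h4)
  exact h5.symm

/-- (E5) -/
theorem no_rel_lin (hS : Four S) (hM : Mod U κ φ) (hU : IsOpen U) (hne : U.Nonempty)
    {ι : Type} [Fintype ι] [DecidableEq ι] {ζ : ι → (S → ℂ) → Fin n → ℂ} (h : ∀ i, B1 U (ζ i))
    {ζ' : (S → ℂ) → Fin n → ℂ} (h' : B1 U ζ') {m : ι → Fin n → ℂ} {m' : Fin n → ℂ} (hm' : m' ≠ 0) {C0 : ℂ}
    (hC : ∀ x ∈ U, ∑ i, ∑ l, m i l * ζ i x l + ∑ l, m' l * ζ' x l = C0)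
    {A : ι → Matrix (Fin n) (Fin n) k} {C1 : Fin n → k} {a b : ι}
    (hL : Lin k (fun i l => φ (AZ.el ((h i).z l))) (fun l => φ (AZ.el (h'.z l))) A C1 a b) (l : Fin n) :
    ∀ x ∈ U, ζ' x l = 0 := by
  have := hM.ck
  have := hM.cF
  have hb := fun i => blk hS hU hne hM (h i)
  have hb' := blk hS hU hne hM h'
  have hkm : (fun l => κ (C (m' l))) ≠ 0 := by
    intro h0
    apply hm'
    funext l
    have h1 := congrFun h0 l
    have h2 : (C (m' l) : MvPolynomial S ℂ) = 0 := hM.kinj (by rw [map_zero]; exact h1)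
    exact C_eq_zero.1 h2
  have h1 := blocks hL hS hb hb' hkm (fun q => rel_F hM hU h h' hC q)
  have h2 : ∀ x ∈ U, ∀ j, eval (Sum.elim 0 (ez (ζ' x))) (Pj x j) = 0 := by
    intro x hx j
    have h3 := h1 j
    rw [cF_cK hM] at h3
    have h4 : φ (eval (Sum.elim 0 fun l => AZ.el (h'.y l)) (Pj (fun q => AZ.toAn U (X q)) j)) = 0 := by
      rw [ev_Pj_map]
      have h5 : (fun l : Fin n => φ ((0 : Fin n → AZ.An U) l)) = 0 := funext fun l => map_zero φ
      rw [h5]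
      exact h3
    have h5 := congrArg (AZ.evp (⟨x, hx⟩ : U)) (hM.inj (h4.trans (map_zero φ).symm))
    rw [ev_Pj_map, ev_X, map_zero] at h5
    have h6 : (fun l : Fin n => AZ.evp (⟨x, hx⟩ : U) ((0 : Fin n → AZ.An U) l)) = 0 := funext fun l => map_zero _
    rw [h6] at h5
    exact h5
  intro x hx
  exact coord_zero hS hU hx (h'.an x hx).continuousAt h'.zero (h'.simple x hx) h2 l

end Pool.Agent.V8H73.AN
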