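import Pool.Agent.V8H73.AN.Gen
import Pool.Agent.V8H73.AZ.Ring
import Pool.Agent.N878.AX.LINE
import Pool.Agent.N301.AX.IND
import Pool.Agent.N945.AX.ELL

/-!
# Zeros of systems as functions of the coefficients: fields of functions
-/

set_option autoImplicit false
set_option linter.unusedSectionVars false

open Set Filter MvPolynomial
open scoped Topology

namespace Pool.Agent.V8H73.AN

open Pool.Agent.V8H73

section model

variable {X : Type} [Fintype X] {k F : Type} [Field k] [Field F] [Algebra k F]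

/-- a field which contains the analytic functions -/
structure Mod (U : Set (X → ℂ)) (κ : MvPolynomial X ℂ →+* k) (φ : AZ.An U →+* F) : Prop where
  tow : ∀ p, algebraMap k F (κ p) = φ (AZ.toAn U p)
  inj : Function.Injective φ
  kinj : Function.Injective κ
  ind : ∀ {ι : Type} {z : ι → (X → ℂ) → ℂ} (hz : ∀ i, AnalyticOnNhd ℂ (z i) U),
    Pool.Agent.N207.AX.Ind U z → AlgebraicIndependent k fun i => φ (AZ.el (hz i))
  ind' : ∀ {ι : Type} {z : ι → (X → ℂ) → ℂ} (hz : ∀ i, AnalyticOnNhd ℂ (z i) U),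
    (AlgebraicIndependent k fun i => φ (AZ.el (hz i))) → Pool.Agent.N207.AX.Ind U z
  ck : CharZero k
  cF : CharZero F

theorem exists_mod {U : Set (X → ℂ)} (hU : IsOpen U) (hc : IsPreconnected U) (hne : U.Nonempty) :
    ∃ (k F : Type) (_ : Field k) (_ : Field F) (_ : Algebra k F) (κ : MvPolynomial X ℂ →+* k) (φ : AZ.An U →+* F),
      Mod U κ φ := by
  have hdom : IsDomain (AZ.An U) := AZ.an_domain hU hc hne
  let _ : Algebra (MvPolynomial X ℂ) (AZ.An U) := (AZ.toAn U).toAlgebra
  have hfs : FaithfulSMul (MvPolynomial X ℂ) (AZ.An U) :=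
    (faithfulSMul_iff_algebraMap_injective _ _).2 (AZ.toAn_inj hU hne)
  let _ : Algebra (FractionRing (MvPolynomial X ℂ)) (FractionRing (AZ.An U)) :=
    FractionRing.liftAlgebra (MvPolynomial X ℂ) (FractionRing (AZ.An U))
  have hinjR : Function.Injective (algebraMap (MvPolynomial X ℂ) (FractionRing (MvPolynomial X ℂ))) :=
    IsFractionRing.injective _ _
  have hinjA : Function.Injective (algebraMap (AZ.An U) (FractionRing (AZ.An U))) := IsFractionRing.injective _ _
  have hch : CharZero (FractionRing (MvPolynomial X ℂ)) := by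
    constructor
    intro p q hpq
    have h1 : algebraMap (MvPolynomial X ℂ) (FractionRing (MvPolynomial X ℂ)) (p : MvPolynomial X ℂ) =
        algebraMap (MvPolynomial X ℂ) (FractionRing (MvPolynomial X ℂ)) (q : MvPolynomial X ℂ) := by
      rw [map_natCast, map_natCast]
      exact hpq
    exact_mod_cast hinjR h1
  have hchF : CharZero (FractionRing (AZ.An U)) := charZero_of_injective_algebraMap
    (algebraMap (FractionRing (MvPolynomial X ℂ)) (FractionRing (AZ.An U))).injective
  have htow : ∀ p : MvPolynomial X ℂ, algebraMap (FractionRing (MvPolynomial X ℂ)) (FractionRing (AZ.An U))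
      (algebraMap (MvPolynomial X ℂ) (FractionRing (MvPolynomial X ℂ)) p) =
      algebraMap (AZ.An U) (FractionRing (AZ.An U)) (AZ.toAn U p) := by
    intro p
    rw [← IsScalarTower.algebraMap_apply (MvPolynomial X ℂ) (FractionRing (MvPolynomial X ℂ)) (FractionRing (AZ.An U)),
      IsScalarTower.algebraMap_apply (MvPolynomial X ℂ) (AZ.An U) (FractionRing (AZ.An U))]
    rfl
  refine ⟨FractionRing (MvPolynomial X ℂ), FractionRing (AZ.An U), inferInstance, inferInstance, inferInstance,
    algebraMap (MvPolynomial X ℂ) (FractionRing (MvPolynomial X ℂ)), algebraMap (AZ.An U) (FractionRing (AZ.An U)),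
    htow, hinjA, hinjR, ?_, ?_, hch, hchF⟩
  · intro ι z hz hI
    have h1 : AlgebraicIndependent (MvPolynomial X ℂ)
        (fun i => algebraMap (AZ.An U) (FractionRing (AZ.An U)) (AZ.el (hz i))) := by
      rw [algebraicIndependent_iff]
      intro p hp
      refine AZ.ind_alg hz hI p (hinjA ?_)
      rw [map_zero, ← hp, ← MvPolynomial.coe_eval₂Hom, ← RingHom.comp_apply, MvPolynomial.comp_eval₂Hom]
      rfl
    have h2 : Algebra.IsAlgebraic (MvPolynomial X ℂ) (FractionRing (MvPolynomial X ℂ)) :=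
      (IsFractionRing.comap_isAlgebraic_iff (K := FractionRing (MvPolynomial X ℂ))).2 inferInstance
    exact h1.extendScalars _
  · intro ι z hz hI p hp
    have h1 : AlgebraicIndependent (MvPolynomial X ℂ)
        (fun i => algebraMap (AZ.An U) (FractionRing (AZ.An U)) (AZ.el (hz i))) :=
      hI.restrictScalars hinjR
    rw [algebraicIndependent_iff] at h1
    refine h1 p ?_
    have h2 : p.eval₂ (AZ.toAn U) (fun i => AZ.el (hz i)) = 0 := by
      refine AZ.zero_of_evp fun x => ?_
      rw [← MvPolynomial.coe_eval₂Hom, ← RingHom.comp_apply, MvPolynomial.comp_eval₂Hom]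
      exact hp x x.2
    have h3 := congrArg (algebraMap (AZ.An U) (FractionRing (AZ.An U))) h2
    rw [map_zero, ← MvPolynomial.coe_eval₂Hom, ← RingHom.comp_apply, MvPolynomial.comp_eval₂Hom] at h3
    exact h3

variable {U : Set (X → ℂ)} {κ : MvPolynomial X ℂ →+* k} {φ : AZ.An U →+* F}

/-- the theorem of Ax and counting -/
theorem count_fn (hM : Mod U κ φ) (hU : IsOpen U) (hc : IsPreconnected U) (hne : U.Nonempty) {σ : Type} [Fintype σ]
    {z : σ → (X → ℂ) → ℂ} (hz : ∀ s, AnalyticOnNhd ℂ (z s) U)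
    (hfree : ∀ (m : σ → ℤ) (C : ℂ), (∀ x ∈ U, ∑ s, (m s : ℂ) * z s x = C) → m = 0) {ρ : Type} [Fintype ρ] {Z : ρ → F}
    (h : ∀ δ : Derivation k F F, (∀ r, δ (Z r) = 0) → ∀ s, δ (φ (AZ.el (hz s))) = 0 ∧ δ (φ (AZ.el (hz s).cexp)) = 0) :
    Fintype.card σ ≤ Fintype.card ρ ∧ (Fintype.card σ = Fintype.card ρ → AlgebraicIndependent k Z) := by
  have := hM.ck
  let ε := (Fintype.equivFin σ).symm
  obtain ⟨e, he, hI⟩ := Pool.Agent.N207.AX.exp_ind
    (Pool.Agent.N945.AX.ell (Pool.Agent.N301.AX.ind Pool.Agent.N878.AX.line)) hU hc hne (t := fun i => z (ε i))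
    (fun i => hz (ε i)) fun m C hC => by
      have h1 := hfree (fun s => m (ε.symm s)) C fun x hx => by
        rw [← hC x hx]
        refine (Equiv.sum_comp ε (fun s => (m (ε.symm s) : ℂ) * z s x)).symm.trans ?_
        refine Finset.sum_congr rfl fun i _ => ?_
        rw [Equiv.symm_apply_apply]
      funext i
      have h2 := congrFun h1 (ε i)
      rwa [Equiv.symm_apply_apply] at h2
  let f : Fin (Fintype.card σ) → (X → ℂ) → ℂ := fun k x =>
    Sum.elim (fun k => z (ε k) x) (fun k => Complex.exp (z (ε k) x)) (e k)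
  have hf0 : ∀ o : Fin (Fintype.card σ) ⊕ Fin (Fintype.card σ),
      AnalyticOnNhd ℂ (fun x => Sum.elim (fun k => z (ε k) x) (fun k => Complex.exp (z (ε k) x)) o) U := by
    rintro (i | i)
    · exact hz (ε i)
    · exact (hz (ε i)).cexp
  have hf : ∀ i, AnalyticOnNhd ℂ (f i) U := fun i => hf0 (e i)
  have hW := hM.ind hf hI
  have h1 := count hW (Z := Z) fun δ hδ i => by
    have h2 : ∀ o : Fin (Fintype.card σ) ⊕ Fin (Fintype.card σ), δ (φ (AZ.el (hf0 o))) = 0 := by
      rintro (i | i)
      · exact (h δ hδ (ε i)).1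
      · exact (h δ hδ (ε i)).2
    exact h2 (e i)
  rw [Fintype.card_fin] at h1
  exact h1

end model

end Pool.Agent.V8H73.AN
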