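import Pool.Agent.V8H73.AN.Fre

/-!
# Zeros of systems as functions of the coefficients: independence
-/

set_option autoImplicit false
set_option linter.unusedSectionVars false

open Set Filter MvPolynomial
open scoped Topology

namespace Pool.Agent.V8H73.AN

open Pool.Agent.V8H73

variable {n : ℕ} {S : Finset (Fin n × Ex n)} {U : Set (S → ℂ)}
  {k F : Type} [Field k] [Field F] [Algebra k F] {κ : MvPolynomial S ℂ →+* k} {φ : AZ.An U →+* F}

/-- **No nontrivial linear combination of the coordinates is constant.** -/
theorem free (hS : Four S) (hM : Mod U κ φ) (hU : IsOpen U) (hc : IsPreconnected U) (hne : U.Nonempty) :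
    ∀ {N : ℕ} {ζ : Fin N → (S → ℂ) → Fin n → ℂ}, Br U ζ → Fr U ζ := by
  intro N
  induction N with
  | zero =>
    intro ζ _ m C0 _
    exact Subsingleton.elim _ _
  | succ r ih =>
    intro ζ h m C0 hC
    by_cases hm : ∃ i, m i = 0
    · obtain ⟨i, hi⟩ := hm
      have h1 := ih (h.comp (e := i.succAbove) Fin.succAbove_right_injective) (fun j => m (i.succAbove j)) C0
        fun x hx => by
          have h2 := hC x hx
          rw [Fin.sum_univ_succAbove _ i, hi] at h2
          simp only [Pi.zero_apply, zero_mul, Finset.sum_const_zero, zero_add] at h2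
          exact h2
      funext j
      rcases Fin.eq_self_or_eq_succAbove i j with rfl | ⟨j', rfl⟩
      · exact hi
      · exact congrFun h1 j'
    exfalso
    push Not at hm
    rcases r with _ | _ | s
    · refine no_rel_one hS hM hU hne (ζ := fun i => i.elim0) (h.b 0) (hm 0) (C0 := C0) fun x hx => ?_
      have h1 := hC x hx
      rw [Fin.sum_univ_one] at h1
      exact h1
    · refine no_rel_two hS hM hU hne (h.b 0) (h.b 1) (hm 1) (m := m 0) (C0 := C0) (fun x hx => ?_)
        (h.dist 0 1 (by simp))
      have h1 := hC x hx
      rw [Fin.sum_univ_two] at h1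
      exact h1
    · have hB := h.comp (e := Fin.castSucc) (Fin.castSucc_injective (s + 2))
      have hF := ih hB
      have hC' : ∀ x ∈ U, ∑ i : Fin (s + 2), ∑ l, m i.castSucc l * ζ i.castSucc x l +
          ∑ l, m (Fin.last _) l * ζ (Fin.last _) x l = C0 := by
        intro x hx
        have h1 := hC x hx
        rw [Fin.sum_univ_castSucc] at h1
        exact h1
      have h2 := last_rel hS hM hU hc hne hB.b hF (h.b (Fin.last _)) (hm (Fin.last _)) hC'
      choose A C1 hA using h2
      -- the matrices
      have hdet : ∀ i : Fin (s + 2), (Matrix.of fun l c => A l i c).det ≠ 0 := by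
        intro i hdet
        obtain ⟨v, hv0, hv⟩ := Matrix.exists_vecMul_eq_zero_iff.2 hdet
        apply hv0
        let m2 : Fin (s + 3) → Fin n → ℂ := fun j => Fin.lastCases (motive := fun _ => Fin n → ℂ) v
          (fun i' c => - ∑ l, v l * A l i' c) j
        have hm2l : m2 (Fin.last _) = v := Fin.lastCases_last
        have hm2c : ∀ i' : Fin (s + 2), m2 i'.castSucc = fun c => - ∑ l, v l * A l i' c := fun i' =>
          Fin.lastCases_castSucc i'
        have hm2i : m2 i.castSucc = 0 := by
          rw [hm2c]
          funext c
          have h3 := congrFun hv c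
          have h4 : ∑ l, v l * A l i c = 0 := h3
          rw [h4, neg_zero, Pi.zero_apply]
        have h3 := ih (h.comp (e := i.castSucc.succAbove) Fin.succAbove_right_injective)
          (fun j => m2 (i.castSucc.succAbove j)) (∑ l, v l * C1 l) fun x hx => by
            have h4 : ∑ j : Fin (s + 3), ∑ l, m2 j l * ζ j x l = ∑ l, v l * C1 l := by
              rw [Fin.sum_univ_castSucc, hm2l]
              simp only [hm2c]
              have h5 : ∑ l, v l * ζ (Fin.last _) x l = ∑ l, v l * C1 l +
                  ∑ i' : Fin (s + 2), ∑ c, (∑ l, v l * A l i' c) * ζ i'.castSucc x c := by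
                have h6 : ∀ l, v l * ζ (Fin.last _) x l = v l * C1 l +
                    ∑ i' : Fin (s + 2), ∑ c, v l * A l i' c * ζ i'.castSucc x c := by
                  intro l
                  rw [hA l x hx, mul_add, Finset.mul_sum]
                  congr 1
                  refine Finset.sum_congr rfl fun i' _ => ?_
                  rw [Finset.mul_sum]
                  exact Finset.sum_congr rfl fun c _ => by ring
                simp only [h6, Finset.sum_add_distrib]
                congr 1
                rw [Finset.sum_comm]
                refine Finset.sum_congr rfl fun i' _ => ?_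
                rw [Finset.sum_comm]
                refine Finset.sum_congr rfl fun c _ => ?_
                rw [Finset.sum_mul]
              rw [h5]
              have h7 : ∑ i' : Fin (s + 2), ∑ c, (- ∑ l, v l * A l i' c) * ζ i'.castSucc x c =
                  - ∑ i' : Fin (s + 2), ∑ c, (∑ l, v l * A l i' c) * ζ i'.castSucc x c := by
                rw [← Finset.sum_neg_distrib]
                refine Finset.sum_congr rfl fun i' _ => ?_
                rw [← Finset.sum_neg_distrib]
                exact Finset.sum_congr rfl fun c _ => by ring
              rw [h7]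
              ring
            rw [Fin.sum_univ_succAbove _ i.castSucc, hm2i] at h4
            simp only [Pi.zero_apply, zero_mul, Finset.sum_const_zero, zero_add] at h4
            exact h4
        obtain ⟨j, hj⟩ := Fin.exists_succAbove_eq (x := Fin.last (s + 2)) (y := i.castSucc)
          (Fin.castSucc_lt_last i).ne'
        have h4 := congrFun h3 j
        rw [hj, hm2l] at h4
        exact h4
      have hunit : ∀ i : Fin (s + 2), IsUnit (Matrix.of fun l c => κ (C (A l i c))) := by
        intro i
        rw [Matrix.isUnit_iff_isUnit_det, isUnit_iff_ne_zero]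
        have h3 : (Matrix.of fun l c => κ (C (A l i c))) =
            (Matrix.of fun l c => A l i c).map (κ.comp (C : ℂ →+* MvPolynomial S ℂ)) := by
          ext l c
          rfl
        rw [h3]
        have h4 : ((Matrix.of fun l c => A l i c).map (κ.comp (C : ℂ →+* MvPolynomial S ℂ))).det =
            (κ.comp (C : ℂ →+* MvPolynomial S ℂ)) (Matrix.of fun l c => A l i c).det :=
          (RingHom.map_det _ _).symm
        rw [h4]
        exact (map_ne_zero_iff _ (RingHom.injective _)).2 (hdet i)
      have hL : Lin k (fun (i : Fin (s + 2)) l => φ (AZ.el ((hB.b i).z l))) (fun l => φ (AZ.el ((h.b (Fin.last _)).z l)))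
          (fun i => Matrix.of fun l c => κ (C (A l i c))) (fun l => κ (C (C1 l))) 0 1 := by
        refine ⟨ind_of_free hS hM hU hc hne hB hF, fun l => ?_, by simp, hunit 0, hunit 1⟩
        simp only [Matrix.of_apply, hM.tow, ← map_mul, ← map_sum, ← map_add]
        congr 1
        refine AZ.an_ext fun x => ?_
        rw [← AZ.evp_apply, ← AZ.evp_apply]
        simp only [map_add, map_sum, map_mul, AZ.evp_el, AZ.evp_toAn, eval_C]
        exact hA l x x.2
      have h3 := no_rel_lin hS hM hU hne hB.b (h.b (Fin.last _)) (hm (Fin.last _)) hC' hL
      -- the last block is zero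
      obtain ⟨l0, -⟩ := Function.ne_iff.1 (hm 0)
      have h4 := ih (h.comp (e := Fin.succ) (Fin.succ_injective _))
        (fun j => if j = Fin.last _ then Pi.single l0 1 else 0) 0 fun x hx => by
          rw [Finset.sum_eq_single (Fin.last _) (fun j _ hj => by
            rw [if_neg hj]
            simp) (fun h => absurd (Finset.mem_univ _) h), if_pos rfl, Fin.succ_last]
          simp only [h3 _ x hx, mul_zero, Finset.sum_const_zero]
      have h5 := congrFun (congrFun h4 (Fin.last _)) l0
      rw [if_pos rfl, Pi.single_eq_same] at h5
      exact one_ne_zero h5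

/-- **The coordinates are independent.** -/
theorem br_ind (hS : Four S) (hU : IsOpen U) (hc : IsPreconnected U) (hne : U.Nonempty)
    {N : ℕ} {ζ : Fin N → (S → ℂ) → Fin n → ℂ} (h : Br U ζ) :
    Pool.Agent.N207.AX.Ind U fun (q : Fin N × Fin n) x => ζ q.1 x q.2 := by
  obtain ⟨k, F, _, _, _, κ, φ, hM⟩ := exists_mod hU hc hne
  exact hM.ind' (fun q => (h.b q.1).z q.2) (ind_of_free hS hM hU hc hne h (free hS hM hU hc hne h))

end Pool.Agent.V8H73.AN
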