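import Pool.Agent.V8H73.AN.Sys

/-!
# Zeros of systems as functions of the coefficients
-/

set_option autoImplicit false
set_option linter.unusedSectionVars false

open Set Filter MvPolynomial
open scoped Topology

namespace Pool.Agent.V8H73.AN

variable {n : ℕ} {S : Finset (Fin n × Ex n)}

theorem elim_an (z : Fin n → ℂ) :
    AnalyticAt ℂ (fun z : Fin n → ℂ => (Sum.elim z (ez z) : Fin n ⊕ Fin n → ℂ)) z := by
  rw [analyticAt_pi_iff]
  have h1 : ∀ l, AnalyticAt ℂ (fun z : Fin n → ℂ => z l) z := fun l => (pl l).analyticAt z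
  rintro (l | l)
  · exact h1 l
  · exact (h1 l).cexp

theorem ev_an (P : MvPolynomial (Fin n ⊕ Fin n) ℂ) (z : Fin n → ℂ) :
    AnalyticAt ℂ (fun z : Fin n → ℂ => eval (Sum.elim z (ez z)) P) z := by
  have h1 : AnalyticOnNhd ℂ (fun v : Fin n ⊕ Fin n → ℂ => eval v P) univ := AnalyticOnNhd.eval_mvPolynomial _
  exact (h1 _ (mem_univ _)).comp_of_eq (elim_an z) rfl

theorem co_an (q : S) (x : S → ℂ) : AnalyticAt ℂ (fun x : S → ℂ => x q) x :=
  (ContinuousLinearMap.proj (R := ℂ) (φ := fun _ : S => ℂ) q).analyticAt x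

theorem Ph_an (v : (S → ℂ) × (Fin n → ℂ)) :
    AnalyticAt ℂ (fun v : (S → ℂ) × (Fin n → ℂ) => Ph v.1 v.2) v := by
  rw [analyticAt_pi_iff]
  intro j
  have h1 : (fun v : (S → ℂ) × (Fin n → ℂ) => Ph v.1 v.2 j) = fun v =>
      ∑ q : S, if q.1.1 = j then v.1 q * mo q.1.2 v.2 (ez v.2) else 0 := funext fun v => Ph_sum v.1 v.2 j
  rw [h1]
  refine Finset.analyticAt_fun_sum _ fun q _ => ?_
  by_cases h : q.1.1 = j
  · simp only [if_pos h]
    exact ((co_an q v.1).comp_of_eq analyticAt_fst rfl).mul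
      ((ev_an (monomial q.1.2 1) v.2).comp_of_eq analyticAt_snd rfl)
  · simp only [if_neg h]
    exact analyticAt_const

/-- linear in the coefficients -/
theorem dPj_sum (x : S → ℂ) (v : Fin n ⊕ Fin n → ℂ) (j : Fin n) (o : Fin n ⊕ Fin n) :
    eval v (pderiv o (Pj x j)) = ∑ q : S, if q.1.1 = j then x q * eval v (pderiv o (monomial q.1.2 1)) else 0 := by
  unfold Pj
  rw [map_sum, map_sum]
  refine Finset.sum_congr rfl fun q _ => ?_
  split_ifs
  · have h1 : monomial q.1.2 (x q) = C (x q) * monomial q.1.2 1 := by rw [C_mul_monomial, mul_one]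
    rw [h1, Derivation.leibniz, pderiv_C, smul_zero, add_zero, smul_eq_mul, map_mul, eval_C]
  · rw [map_zero, map_zero]

theorem dPj_cont (j : Fin n) (o : Fin n ⊕ Fin n) :
    Continuous fun v : (S → ℂ) × (Fin n → ℂ) => eval (Sum.elim v.2 (ez v.2)) (pderiv o (Pj v.1 j)) := by
  have h1 : (fun v : (S → ℂ) × (Fin n → ℂ) => eval (Sum.elim v.2 (ez v.2)) (pderiv o (Pj v.1 j))) = fun v =>
      ∑ q : S, if q.1.1 = j then v.1 q * eval (Sum.elim v.2 (ez v.2)) (pderiv o (monomial q.1.2 1)) else 0 :=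
    funext fun v => dPj_sum v.1 _ j o
  rw [h1]
  refine continuous_finsetSum _ fun q _ => ?_
  by_cases h : q.1.1 = j
  · simp only [if_pos h]
    refine ((continuous_apply q).comp continuous_fst).mul ?_
    have h2 : Continuous fun z : Fin n → ℂ => eval (Sum.elim z (ez z)) (pderiv o (monomial q.1.2 (1 : ℂ))) :=
      continuous_iff_continuousAt.2 fun z => (ev_an _ z).continuousAt
    exact h2.comp continuous_snd
  · simp only [if_neg h]
    exact continuous_const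

theorem ez_cont (l : Fin n) : Continuous fun z : Fin n → ℂ => ez z l := Complex.continuous_exp.comp (continuous_apply l)

theorem det_cont : Continuous fun v : (S → ℂ) × (Fin n → ℂ) => (JJ v.1 v.2 (ez v.2)).det := by
  refine Continuous.matrix_det ?_
  refine continuous_matrix fun j l => ?_
  exact (dPj_cont j (Sum.inl l)).add (((ez_cont l).comp continuous_snd).mul (dPj_cont j (Sum.inr l)))

theorem Ph_cont : Continuous fun v : (S → ℂ) × (Fin n → ℂ) => Ph v.1 v.2 :=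
  continuous_iff_continuousAt.2 fun v => (Ph_an v).continuousAt

theorem Ph_add (x ξ : S → ℂ) (t : ℂ) (z : Fin n → ℂ) (j : Fin n) :
    Ph (x + t • ξ) z j = Ph x z j + t * ∑ q : S, if q.1.1 = j then ξ q * mo q.1.2 z (ez z) else 0 := by
  rw [Ph_sum, Ph_sum, Finset.mul_sum, ← Finset.sum_add_distrib]
  refine Finset.sum_congr rfl fun q _ => ?_
  split_ifs
  · simp only [Pi.add_apply, Pi.smul_apply, smul_eq_mul]
    ring
  · simp

/-- the zeros do not move if the coefficients move in the right directions -/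
theorem moving {U : Set (S → ℂ)} {ζ : (S → ℂ) → Fin n → ℂ} {x0 : S → ℂ} (hU : IsOpen U) (hx0 : x0 ∈ U)
    (hζ : ContinuousAt ζ x0) (h0 : ∀ x ∈ U, Ph x (ζ x) = 0) (h1 : (JJ x0 (ζ x0) (ez (ζ x0))).det ≠ 0) {ξ : S → ℂ}
    (hξ : ∀ j, (∑ q : S, if q.1.1 = j then ξ q * mo q.1.2 (ζ x0) (ez (ζ x0)) else 0) = 0) :
    ∀ᶠ t : ℂ in 𝓝 0, x0 + t • ξ ∈ U ∧ ζ (x0 + t • ξ) = ζ x0 := by
  obtain ⟨ψ, -, -, -, h2⟩ := one_zero (Φ := fun v : (S → ℂ) × (Fin n → ℂ) => Ph v.1 v.2) (x0 := x0) (z0 := ζ x0)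
    (Ph_an _) (h0 x0 hx0) (Ph_deriv x0 (ζ x0)) (Dl_inv h1)
  have hl : Tendsto (fun t : ℂ => x0 + t • ξ) (𝓝 0) (𝓝 x0) := by
    have h3 : Continuous fun t : ℂ => x0 + t • ξ := continuous_const.add (continuous_id.smul continuous_const)
    have h4 := h3.tendsto 0
    rwa [zero_smul, add_zero] at h4
  have e1 : ∀ᶠ t : ℂ in 𝓝 0, Ph (x0 + t • ξ) (ζ (x0 + t • ξ)) = 0 → ψ (x0 + t • ξ) = ζ (x0 + t • ξ) := by
    have h3 : Tendsto (fun t : ℂ => (x0 + t • ξ, ζ (x0 + t • ξ))) (𝓝 0) (𝓝 (x0, ζ x0)) :=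
      hl.prodMk_nhds (Tendsto.comp hζ hl)
    exact h3.eventually h2
  have e2 : ∀ᶠ t : ℂ in 𝓝 0, Ph (x0 + t • ξ) (ζ x0) = 0 → ψ (x0 + t • ξ) = ζ x0 := by
    have h3 : Tendsto (fun t : ℂ => (x0 + t • ξ, ζ x0)) (𝓝 0) (𝓝 (x0, ζ x0)) :=
      hl.prodMk_nhds tendsto_const_nhds
    exact h3.eventually h2
  filter_upwards [e1, e2, hl.eventually (hU.mem_nhds hx0)] with t k1 k2 k3
  refine ⟨k3, ?_⟩
  have k4 : Ph (x0 + t • ξ) (ζ x0) = 0 := by
    funext j
    rw [Ph_add, hξ j, mul_zero, add_zero]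
    exact congrFun (h0 x0 hx0) j
  rw [← k1 (h0 _ k3), k2 k4]

/-- sums over the exponents of one equation which are concentrated at one exponent -/
theorem sum_at {A : Type*} [AddCommMonoid A] (f : S → A) (q0 : S) (j : Fin n) (hf : ∀ q, q ≠ q0 → q.1.1 = j → f q = 0) :
    (∑ q : S, if q.1.1 = j then f q else 0) = if q0.1.1 = j then f q0 else 0 := by
  refine Finset.sum_eq_single q0 (fun q _ hq => ?_) fun h => absurd (Finset.mem_univ _) h
  by_cases h : q.1.1 = j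
  · rw [if_pos h, hf q hq h]
  · rw [if_neg h]

end Pool.Agent.V8H73.AN
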