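import Mathlib
import Pool.Agent.V8H73.AN.Blk

/-!
# Systems of exponential equations: derivatives and the implicit function theorem
-/

set_option autoImplicit false
set_option linter.unusedSectionVars false

open Set Filter MvPolynomial
open scoped Topology ContDiff

namespace Pool.Agent.V8H73.AN

section ift

variable {E : Type*} [NormedAddCommGroup E] [NormedSpace ℂ E] [CompleteSpace E]
  {V : Type*} [NormedAddCommGroup V] [NormedSpace ℂ V] [CompleteSpace V]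

/-- a nondegenerate zero near one point -/
theorem one_zero {Φ : E × V → V} {x0 : E} {z0 : V} {d : V →L[ℂ] V} (hΦ : AnalyticAt ℂ Φ (x0, z0)) (h0 : Φ (x0, z0) = 0)
    (hd : HasFDerivAt (fun w => Φ (x0, w)) d z0) (hd0 : d.IsInvertible) :
    ∃ ψ : E → V, ψ x0 = z0 ∧ AnalyticAt ℂ ψ x0 ∧ (∀ᶠ x in 𝓝 x0, Φ (x, ψ x) = 0) ∧
      ∀ᶠ v in 𝓝 (x0, z0), Φ v = 0 → ψ v.1 = v.2 := by
  have cdf : ContDiffAt ℂ ω Φ (x0, z0) := hΦ.contDiffAt
  have inv : (fderiv ℂ Φ (x0, z0) ∘L .inr ℂ E V).IsInvertible := by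
    have h1 : HasFDerivAt (fun w : V => Φ (x0, w)) (fderiv ℂ Φ (x0, z0) ∘L .inr ℂ E V) z0 := by
      have h2 : HasFDerivAt Φ (fderiv ℂ Φ (x0, z0)) (x0, z0) := (cdf.differentiableAt (by simp)).hasFDerivAt
      have h3 : HasFDerivAt (fun w : V => (x0, w)) (.inr ℂ E V) z0 := hasFDerivAt_prodMk_right x0 z0
      exact h2.comp z0 h3
    rw [h1.unique hd]
    exact hd0
  refine ⟨cdf.implicitFunction (by simp) inv, cdf.implicitFunction_apply_self (by simp) inv,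
    (cdf.contDiffAt_implicitFunction (by simp) inv).analyticAt, ?_, ?_⟩
  · have := cdf.eventually_apply_implicitFunction (by simp) inv
    rw [h0] at this
    exact this
  · have := cdf.eventually_apply_eq_iff_implicitFunction (by simp) inv
    rw [h0] at this
    filter_upwards [this] with v hv using hv.1

/-- **The zeros in a ball.** -/
theorem patch [ProperSpace V] {Φ : E × V → V} (hΦ : ∀ v, AnalyticAt ℂ Φ v) {D : E → V → V →L[ℂ] V} {d : E → V → ℂ}
    (hD : ∀ x z, HasFDerivAt (fun w => Φ (x, w)) (D x z) z) (hdD : ∀ x z, d x z ≠ 0 → (D x z).IsInvertible)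
    (hdc : Continuous fun v : E × V => d v.1 v.2)
    {x0 : E} {R : ℝ} (hs : ∀ z, ‖z‖ ≤ R → Φ (x0, z) = 0 → d x0 z ≠ 0) :
    ∃ (δ : ℝ) (n : ℕ) (ζ : Fin n → E → V), 0 < δ ∧ (∀ i, AnalyticOnNhd ℂ (ζ i) (Metric.ball x0 δ)) ∧
      (∀ i, ∀ x ∈ Metric.ball x0 δ, Φ (x, ζ i x) = 0) ∧ (∀ i, ∀ x ∈ Metric.ball x0 δ, d x (ζ i x) ≠ 0) ∧
      (∀ i j, i ≠ j → ∀ x ∈ Metric.ball x0 δ, ζ i x ≠ ζ j x) ∧
      ∀ x ∈ Metric.ball x0 δ, ∀ z, ‖z‖ ≤ R → Φ (x, z) = 0 → ∃ i, ζ i x = z := by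
  classical
  have hloc : ∀ z0 : V, ∃ (ψ : E → V) (B : Set V), z0 ∈ Metric.closedBall (0 : V) R → B ∈ 𝓝 z0 ∧
      (∀ᶠ x in 𝓝 x0, ∀ z ∈ B, Φ (x, z) = 0 → Φ (x0, z0) = 0 ∧ ψ x = z) ∧
      (Φ (x0, z0) = 0 → ψ x0 = z0 ∧ AnalyticAt ℂ ψ x0 ∧ ∀ᶠ x in 𝓝 x0, Φ (x, ψ x) = 0) := by
    intro z0
    by_cases hz : z0 ∈ Metric.closedBall (0 : V) R
    · by_cases h0 : Φ (x0, z0) = 0
      · have hR : ‖z0‖ ≤ R := by rwa [Metric.mem_closedBall, dist_zero_right] at hz
        obtain ⟨ψ, h1, h2, h3, h4⟩ := one_zero (hΦ _) h0 (hD x0 z0) (hdD _ _ (hs z0 hR h0))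
        rw [nhds_prod_eq, eventually_prod_iff] at h4
        obtain ⟨pa, ha, pb, hb, hab⟩ := h4
        refine ⟨ψ, {z | pb z}, fun _ => ⟨hb, ?_, fun _ => ⟨h1, h2, h3⟩⟩⟩
        filter_upwards [ha] with x hx z hz h
        exact ⟨h0, hab hx hz h⟩
      · have h4 : ∀ᶠ v in 𝓝 (x0, z0), Φ v ≠ 0 := (hΦ _).continuousAt.eventually_ne h0
        rw [nhds_prod_eq, eventually_prod_iff] at h4
        obtain ⟨pa, ha, pb, hb, hab⟩ := h4
        refine ⟨fun _ => 0, {z | pb z}, fun _ => ⟨hb, ?_, fun h => absurd h h0⟩⟩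
        filter_upwards [ha] with x hx z hz h
        exact absurd h (hab hx hz)
    · exact ⟨fun _ => 0, univ, fun h => absurd h hz⟩
  choose ψ B hψ using hloc
  obtain ⟨t, ht1, ht2⟩ := (isCompact_closedBall (0 : V) R).elim_nhds_subcover B fun z hz => (hψ z hz).1
  set t' := t.filter fun z => Φ (x0, z) = 0 with ht'
  have hmem : ∀ z ∈ t', z ∈ Metric.closedBall (0 : V) R ∧ Φ (x0, z) = 0 := fun z hz => by
    rw [ht', Finset.mem_filter] at hz
    exact ⟨ht1 z hz.1, hz.2⟩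
  have e1 : ∀ᶠ x in 𝓝 x0, ∀ z0 ∈ t, ∀ z ∈ B z0, Φ (x, z) = 0 → Φ (x0, z0) = 0 ∧ ψ z0 x = z :=
    (Finset.eventually_all t).2 fun z0 hz0 => (hψ z0 (ht1 z0 hz0)).2.1
  have e2 : ∀ᶠ x in 𝓝 x0, ∀ z0 ∈ t', AnalyticAt ℂ (ψ z0) x ∧ Φ (x, ψ z0 x) = 0 ∧ d x (ψ z0 x) ≠ 0 := by
    refine (Finset.eventually_all t').2 fun z0 hz0 => ?_
    obtain ⟨h1, h2, h3⟩ := (hψ z0 (hmem z0 hz0).1).2.2 (hmem z0 hz0).2
    have h4 : ∀ᶠ x in 𝓝 x0, d x (ψ z0 x) ≠ 0 := by
      have hc : ContinuousAt (fun x => d x (ψ z0 x)) x0 := by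
        have h5 : ContinuousAt (fun x => (x, ψ z0 x)) x0 := continuousAt_id.prodMk h2.continuousAt
        exact (hdc.continuousAt (x := (x0, ψ z0 x0))).comp_of_eq h5 rfl
      refine hc.eventually_ne ?_
      rw [h1]
      have hR : ‖z0‖ ≤ R := by
        have := (hmem z0 hz0).1
        rwa [Metric.mem_closedBall, dist_zero_right] at this
      exact hs z0 hR (hmem z0 hz0).2
    filter_upwards [h2.eventually_analyticAt, h3, h4] with x a b c using ⟨a, b, c⟩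
  have e3 : ∀ᶠ x in 𝓝 x0, ∀ z0 ∈ t', ∀ z1 ∈ t', z0 ≠ z1 → ψ z0 x ≠ ψ z1 x := by
    refine (Finset.eventually_all t').2 fun z0 hz0 => (Finset.eventually_all t').2 fun z1 hz1 => ?_
    obtain ⟨h1, h2, -⟩ := (hψ z0 (hmem z0 hz0).1).2.2 (hmem z0 hz0).2
    obtain ⟨h3, h4, -⟩ := (hψ z1 (hmem z1 hz1).1).2.2 (hmem z1 hz1).2
    by_cases hne : z0 = z1
    · exact Eventually.of_forall fun x h => absurd hne h
    · have h5 : ContinuousAt (fun x => ψ z0 x - ψ z1 x) x0 := h2.continuousAt.sub h4.continuousAt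
      have h6 : ∀ᶠ x in 𝓝 x0, ψ z0 x - ψ z1 x ≠ 0 := h5.eventually_ne (by rw [h1, h3]; exact sub_ne_zero.2 hne)
      filter_upwards [h6] with x hx _ h
      exact hx (sub_eq_zero.2 h)
  obtain ⟨δ, hδ, hball⟩ := Metric.eventually_nhds_iff_ball.1 (e1.and (e2.and e3))
  refine ⟨δ, t'.card, fun i => ψ (t'.equivFin.symm i), hδ, fun i x hx => ((hball x hx).2.1 _ (t'.equivFin.symm i).2).1,
    fun i x hx => ((hball x hx).2.1 _ (t'.equivFin.symm i).2).2.1,
    fun i x hx => ((hball x hx).2.1 _ (t'.equivFin.symm i).2).2.2, fun i j hij x hx => ?_, fun x hx z hz h0 => ?_⟩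
  · refine (hball x hx).2.2 _ (t'.equivFin.symm i).2 _ (t'.equivFin.symm j).2 fun h => hij ?_
    exact t'.equivFin.symm.injective (Subtype.ext h)
  · have hz' : z ∈ Metric.closedBall (0 : V) R := by rwa [Metric.mem_closedBall, dist_zero_right]
    obtain ⟨z0, hz0, hzB⟩ := mem_iUnion₂.1 (ht2 hz')
    obtain ⟨h1, h2⟩ := (hball x hx).1 z0 hz0 z hzB h0
    have hz0' : z0 ∈ t' := by
      rw [ht', Finset.mem_filter]
      exact ⟨hz0, h1⟩
    exact ⟨t'.equivFin ⟨z0, hz0'⟩, by simpa using h2⟩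

end ift

variable {n : ℕ} {S : Finset (Fin n × Ex n)}

/-- the exponentials -/
noncomputable def ez (z : Fin n → ℂ) : Fin n → ℂ := fun l => Complex.exp (z l)

/-- a coordinate -/
noncomputable def pl (l : Fin n) : (Fin n → ℂ) →L[ℂ] ℂ := ContinuousLinearMap.proj l

theorem pl_apply (l : Fin n) (v : Fin n → ℂ) : pl l v = v l := rfl

theorem pl_deriv (l : Fin n) (z : Fin n → ℂ) : HasFDerivAt (fun z : Fin n → ℂ => z l) (pl l) z := hasFDerivAt_apply l z

/-- the values of the equations -/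
noncomputable def Ph (x : S → ℂ) (z : Fin n → ℂ) : Fin n → ℂ := fun j => eval (Sum.elim z (ez z)) (Pj x j)

theorem Ph_sum (x : S → ℂ) (z : Fin n → ℂ) (j : Fin n) :
    Ph x z j = ∑ q : S, if q.1.1 = j then x q * mo q.1.2 z (ez z) else 0 := by
  unfold Ph Pj
  rw [map_sum]
  refine Finset.sum_congr rfl fun q _ => ?_
  split_ifs
  · unfold mo
    have h1 : monomial q.1.2 (x q) = C (x q) * monomial q.1.2 1 := by rw [C_mul_monomial, mul_one]
    rw [h1, map_mul, eval_C]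
  · rw [map_zero]

theorem ev_deriv (P : MvPolynomial (Fin n ⊕ Fin n) ℂ) (z : Fin n → ℂ) : ∃ L : (Fin n → ℂ) →L[ℂ] ℂ,
    (∀ v, L v = ∑ l, (eval (Sum.elim z (ez z)) (pderiv (Sum.inl l) P) +
      ez z l * eval (Sum.elim z (ez z)) (pderiv (Sum.inr l) P)) * v l) ∧
    HasFDerivAt (fun z : Fin n → ℂ => eval (Sum.elim z (ez z)) P) L z := by
  induction P using MvPolynomial.induction_on with
  | C a =>
    refine ⟨0, fun v => ?_, ?_⟩
    · simp only [pderiv_C, map_zero, mul_zero, add_zero, zero_mul, Finset.sum_const_zero]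
      rfl
    · simp only [eval_C]
      exact hasFDerivAt_const _ _
  | add p q hp hq =>
    obtain ⟨L1, h1, h1'⟩ := hp
    obtain ⟨L2, h2, h2'⟩ := hq
    refine ⟨L1 + L2, fun v => ?_, ?_⟩
    · have h3 : (L1 + L2) v = L1 v + L2 v := rfl
      rw [h3, h1, h2, ← Finset.sum_add_distrib]
      refine Finset.sum_congr rfl fun l _ => ?_
      simp only [map_add]
      ring
    · simp only [map_add]
      exact h1'.add h2'
  | mul_X p o hp =>
    obtain ⟨L1, h1, h1'⟩ := hp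
    obtain ⟨L2, h2, h2'⟩ : ∃ L : (Fin n → ℂ) →L[ℂ] ℂ, (∀ v, L v = ∑ l, ((if Sum.inl l = o then (1 : ℂ) else 0) +
        ez z l * (if Sum.inr l = o then (1 : ℂ) else 0)) * v l) ∧
        HasFDerivAt (fun z : Fin n → ℂ => (Sum.elim z (ez z) : Fin n ⊕ Fin n → ℂ) o) L z := by
      rcases o with l0 | l0
      · refine ⟨pl l0, fun v => ?_, pl_deriv l0 z⟩
        rw [Finset.sum_eq_single l0 (fun l _ hl => by simp [hl]) (fun h => absurd (Finset.mem_univ _) h), pl_apply]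
        simp
      · refine ⟨Complex.exp (z l0) • pl l0, fun v => ?_, (pl_deriv l0 z).cexp⟩
        rw [Finset.sum_eq_single l0 (fun l _ hl => by simp [hl]) (fun h => absurd (Finset.mem_univ _) h)]
        have h3 : (Complex.exp (z l0) • pl l0) v = Complex.exp (z l0) * v l0 := rfl
        rw [h3]
        simp [ez]
    refine ⟨eval (Sum.elim z (ez z)) p • L2 + (Sum.elim z (ez z) : Fin n ⊕ Fin n → ℂ) o • L1, fun v => ?_, ?_⟩
    · have h3 : (eval (Sum.elim z (ez z)) p • L2 + (Sum.elim z (ez z) : Fin n ⊕ Fin n → ℂ) o • L1) v =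
          eval (Sum.elim z (ez z)) p * L2 v + (Sum.elim z (ez z) : Fin n ⊕ Fin n → ℂ) o * L1 v := rfl
      rw [h3, h1, h2, Finset.mul_sum, Finset.mul_sum, ← Finset.sum_add_distrib]
      refine Finset.sum_congr rfl fun l _ => ?_
      rw [Derivation.leibniz, Derivation.leibniz, pderiv_X, pderiv_X]
      simp only [smul_eq_mul, map_add, map_mul, eval_X]
      have e1 : ∀ x : Fin n ⊕ Fin n, eval (Sum.elim z (ez z)) ((Pi.single x 1 : Fin n ⊕ Fin n → MvPolynomial _ ℂ) o) =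
          if x = o then 1 else 0 := by
        intro x
        by_cases h : x = o
        · subst h
          simp
        · rw [if_neg h, Pi.single_eq_of_ne (Ne.symm h), map_zero]
      rw [e1, e1]
      ring
    · simp only [map_mul, eval_X]
      exact h1'.mul h2'

/-- the derivative of the system -/
noncomputable def Dl (x : S → ℂ) (z : Fin n → ℂ) : (Fin n → ℂ) →L[ℂ] (Fin n → ℂ) :=
  ContinuousLinearMap.pi fun j => (ev_deriv (Pj x j) z).choose

theorem Dl_apply (x : S → ℂ) (z v : Fin n → ℂ) : Dl x z v = (JJ x z (ez z)).mulVec v := by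
  funext j
  exact (ev_deriv (Pj x j) z).choose_spec.1 v

theorem Ph_deriv (x : S → ℂ) (z : Fin n → ℂ) : HasFDerivAt (fun z => Ph x z) (Dl x z) z := by
  refine hasFDerivAt_pi.2 fun j => ?_
  exact (ev_deriv (Pj x j) z).choose_spec.2

theorem Dl_inv {x : S → ℂ} {z : Fin n → ℂ} (h : (JJ x z (ez z)).det ≠ 0) : (Dl x z).IsInvertible := by
  have hinj : Function.Injective (Dl x z : (Fin n → ℂ) →ₗ[ℂ] (Fin n → ℂ)) := by
    rw [injective_iff_map_eq_zero]
    intro v hv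
    have h1 : (JJ x z (ez z)).mulVec v = 0 := by rw [← Dl_apply]; exact hv
    exact Matrix.eq_zero_of_mulVec_eq_zero h h1
  refine ⟨(LinearEquiv.ofInjectiveEndo _ hinj).toContinuousLinearEquiv, ?_⟩
  ext v
  rfl

end Pool.Agent.V8H73.AN
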